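import Mathlib

/-! The Daboussi - Katai - Bourgain - Sarnak - Ziegler orthogonality criterion. -/

open Filter Topology Finset
open scoped ComplexConjugate

namespace Pool.Agent.Lib.MP_9fe581_an

section TuranKubilius

/-- number of primes of `P` dividing `n` -/
noncomputable def om (P : Finset ℕ) (n : ℕ) : ℝ := ∑ p ∈ P, if p ∣ n then (1 : ℝ) else 0

lemma card_dvd (N d : ℕ) : ((Icc 1 N).filter (fun n => d ∣ n)).card = N / d := by
  have := Nat.Ioc_filter_dvd_card_eq_div N d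
  rwa [show (Icc 1 N : Finset ℕ) = Ioc 0 N from rfl]

lemma sum_ite_dvd (N d : ℕ) : (∑ n ∈ Icc 1 N, if d ∣ n then (1 : ℝ) else 0) = ((N / d : ℕ) : ℝ) := by
  rw [Finset.sum_boole, card_dvd]

lemma sum_om_ge (P : Finset ℕ) (N : ℕ) :
    (N : ℝ) * (∑ p ∈ P, (1 : ℝ) / p) - P.card ≤ ∑ n ∈ Icc 1 N, om P n := by
  unfold om
  rw [Finset.sum_comm]
  have : ∀ p ∈ P, (N : ℝ) * (1 / p) - 1 ≤ ∑ n ∈ Icc 1 N, if p ∣ n then (1 : ℝ) else 0 := by
    intro p _
    rw [sum_ite_dvd]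
    have := (Nat.lt_floor_add_one ((N : ℝ) / p)).le
    rw [Nat.floor_div_eq_div] at this
    have h2 : (N : ℝ) * (1 / p) = N / p := by ring
    rw [h2]; linarith
  have h := Finset.sum_le_sum this
  rw [Finset.sum_sub_distrib, ← Finset.mul_sum] at h
  simpa using h

lemma sum_om_sq_le (P : Finset ℕ) (hP : ∀ p ∈ P, p.Prime) (N : ℕ) :
    ∑ n ∈ Icc 1 N, om P n ^ 2
      ≤ (N : ℝ) * (∑ p ∈ P, (1 : ℝ) / p) ^ 2 + N * ∑ p ∈ P, (1 : ℝ) / p := by
  have h1 : ∀ n, om P n ^ 2 = ∑ p ∈ P, ∑ q ∈ P, if (p ∣ n ∧ q ∣ n) then (1 : ℝ) else 0 := by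
    intro n
    unfold om
    rw [sq, Finset.sum_mul_sum]
    refine Finset.sum_congr rfl fun p _ => Finset.sum_congr rfl fun q _ => ?_
    by_cases hp : p ∣ n <;> by_cases hq : q ∣ n <;> simp [hp, hq]
  simp_rw [h1]
  rw [Finset.sum_comm]
  have h2 : ∀ p ∈ P, ∀ q ∈ P, (∑ n ∈ Icc 1 N, if (p ∣ n ∧ q ∣ n) then (1 : ℝ) else 0)
      ≤ (N : ℝ) * (1 / p) * (1 / q) + if p = q then (N : ℝ) * (1 / p) else 0 := by
    intro p hp q hq
    by_cases hpq : p = q
    · subst hpq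
      simp only [and_self, if_true]
      rw [sum_ite_dvd]
      have := Nat.cast_div_le (α := ℝ) (m := N) (n := p)
      have h0 : (0 : ℝ) ≤ (N : ℝ) * (1 / p) * (1 / p) := by positivity
      have h3 : (N : ℝ) * (1 / p) = N / p := by ring
      linarith
    · rw [if_neg hpq, add_zero]
      have hc : Nat.Coprime p q := (Nat.coprime_primes (hP p hp) (hP q hq)).2 hpq
      have h3 : ∀ n, (p ∣ n ∧ q ∣ n) ↔ p * q ∣ n := fun n =>
        ⟨fun h => Nat.Coprime.mul_dvd_of_dvd_of_dvd hc h.1 h.2,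
          fun h => ⟨(dvd_mul_right p q).trans h, (dvd_mul_left q p).trans h⟩⟩
      simp_rw [h3]
      rw [sum_ite_dvd]
      refine (Nat.cast_div_le (α := ℝ)).trans_eq ?_
      push_cast
      field_simp
  calc ∑ p ∈ P, ∑ n ∈ Icc 1 N, ∑ q ∈ P, (if (p ∣ n ∧ q ∣ n) then (1 : ℝ) else 0)
      = ∑ p ∈ P, ∑ q ∈ P, ∑ n ∈ Icc 1 N, (if (p ∣ n ∧ q ∣ n) then (1 : ℝ) else 0) :=
        Finset.sum_congr rfl fun p _ => Finset.sum_comm
    _ ≤ ∑ p ∈ P, ∑ q ∈ P, ((N : ℝ) * (1 / p) * (1 / q)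
          + if p = q then (N : ℝ) * (1 / p) else 0) :=
        Finset.sum_le_sum fun p hp => Finset.sum_le_sum fun q hq => h2 p hp q hq
    _ = (N : ℝ) * (∑ p ∈ P, (1 : ℝ) / p) ^ 2 + N * ∑ p ∈ P, (1 : ℝ) / p := by
        simp_rw [Finset.sum_add_distrib]
        congr 1
        · rw [sq, Finset.sum_mul_sum, Finset.mul_sum]
          refine Finset.sum_congr rfl fun p _ => ?_
          rw [Finset.mul_sum]
          exact Finset.sum_congr rfl fun q _ => by ring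
        · rw [Finset.mul_sum]
          refine Finset.sum_congr rfl fun p hp => ?_
          rw [Finset.sum_ite_eq, if_pos hp]

lemma turan_kubilius (P : Finset ℕ) (hP : ∀ p ∈ P, p.Prime) (N : ℕ) :
    ∑ n ∈ Icc 1 N, (om P n - ∑ p ∈ P, (1 : ℝ) / p) ^ 2
      ≤ N * (∑ p ∈ P, (1 : ℝ) / p) + 2 * (∑ p ∈ P, (1 : ℝ) / p) * P.card := by
  set A : ℝ := ∑ p ∈ P, (1 : ℝ) / p with hA
  have hA0 : 0 ≤ A := Finset.sum_nonneg fun p _ => by positivity
  have h1 : ∑ n ∈ Icc 1 N, (om P n - A) ^ 2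
      = ∑ n ∈ Icc 1 N, om P n ^ 2 - 2 * A * ∑ n ∈ Icc 1 N, om P n + N * A ^ 2 := by
    have : ∀ n, (om P n - A) ^ 2 = om P n ^ 2 - 2 * A * om P n + A ^ 2 := fun n => by ring
    simp_rw [this]
    rw [Finset.sum_add_distrib, Finset.sum_sub_distrib, ← Finset.mul_sum]
    simp
  rw [h1]
  have h2 := sum_om_sq_le P hP N
  have h3 := sum_om_ge P N
  rw [← hA] at h2 h3
  nlinarith [mul_le_mul_of_nonneg_left h3 (mul_nonneg zero_le_two hA0)]

end TuranKubilius

lemma sum_inv_sq_le (P : Finset ℕ) (hP : ∀ p ∈ P, p.Prime) : ∑ p ∈ P, (1 : ℝ) / (p : ℝ) ^ 2 ≤ 1 := by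
  have h1 : P ⊆ Ioc 1 (P.sup id + 1) := by
    intro p hp
    rw [mem_Ioc]
    exact ⟨(hP p hp).one_lt, (Finset.le_sup (f := id) hp).trans (Nat.le_succ _)⟩
  calc ∑ p ∈ P, (1 : ℝ) / (p : ℝ) ^ 2 ≤ ∑ p ∈ Ioc 1 (P.sup id + 1), (1 : ℝ) / (p : ℝ) ^ 2 :=
        Finset.sum_le_sum_of_subset_of_nonneg h1 fun _ _ _ => by positivity
    _ ≤ 1 := by
        have := sum_Ioc_inv_sq_le_sub (α := ℝ) (k := 1) (n := P.sup id + 1) one_ne_zero (by omega)
        simp only [one_div]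
        refine this.trans ?_
        have : (0 : ℝ) ≤ ((P.sup id + 1 : ℕ) : ℝ)⁻¹ := by positivity
        simp only [Nat.cast_one, inv_one]
        linarith

variable {u a : ℕ → ℂ}

/-- sum over multiples -/
lemma sum_dvd_eq (f : ℕ → ℂ) (N p : ℕ) (hp : 0 < p) :
    (∑ n ∈ Icc 1 N, if p ∣ n then f n else 0) = ∑ m ∈ Icc 1 (N / p), f (p * m) := by
  rw [← Finset.sum_filter]
  symm
  refine Finset.sum_bij (fun m _ => p * m) ?_ ?_ ?_ ?_
  · intro m hm
    rw [mem_Icc] at hm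
    rw [mem_filter, mem_Icc]
    refine ⟨⟨Nat.mul_pos hp hm.1, ?_⟩, dvd_mul_right _ _⟩
    exact (Nat.mul_le_mul_left p hm.2).trans (Nat.mul_div_le N p)
  · intro m _ m' _ h
    exact Nat.eq_of_mul_eq_mul_left hp h
  · intro n hn
    rw [mem_filter, mem_Icc] at hn
    obtain ⟨⟨h1, h2⟩, m, rfl⟩ := hn
    refine ⟨m, ?_, rfl⟩
    rw [mem_Icc]
    refine ⟨Nat.pos_of_ne_zero fun h => by simp [h] at h1, ?_⟩
    exact (Nat.le_div_iff_mul_le hp).2 (by rwa [mul_comm])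
  · intro m _; rfl

/-- the sum over one prime, with `u (p m)` replaced by `u p * u m` -/
lemma prime_sum (hu1 : ∀ n, ‖u n‖ ≤ 1) (hmul : ∀ m n, Nat.Coprime m n → u (m * n) = u m * u n)
    (ha : ∀ n, ‖a n‖ ≤ 1) (p : ℕ) (hp : p.Prime) (N : ℕ) :
    ‖∑ m ∈ Icc 1 (N / p), u (p * m) * a (p * m)
      - ∑ m ∈ Icc 1 (N / p), u p * u m * a (p * m)‖ ≤ 2 * (N * (1 / (p : ℝ) ^ 2)) := by
  rw [← Finset.sum_sub_distrib]
  have h1 : ∀ m, ‖u (p * m) * a (p * m) - u p * u m * a (p * m)‖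
      ≤ 2 * (if p ∣ m then (1 : ℝ) else 0) := by
    intro m
    by_cases h : p ∣ m
    · rw [if_pos h]
      calc ‖u (p * m) * a (p * m) - u p * u m * a (p * m)‖
          ≤ ‖u (p * m) * a (p * m)‖ + ‖u p * u m * a (p * m)‖ := norm_sub_le _ _
        _ ≤ 1 * 1 + 1 * 1 * 1 := by
            rw [norm_mul, norm_mul, norm_mul]
            have h1 := hu1 (p * m); have h2 := ha (p * m); have h3 := hu1 p; have h4 := hu1 m
            gcongr
        _ = 2 * 1 := by norm_num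
    · rw [if_neg h, hmul p m ((Nat.Prime.coprime_iff_not_dvd hp).2 h)]
      simp
  refine (norm_sum_le _ _).trans ((Finset.sum_le_sum fun m _ => h1 m).trans ?_)
  rw [← Finset.mul_sum, sum_ite_dvd]
  refine mul_le_mul_of_nonneg_left ?_ zero_le_two
  rw [Nat.div_div_eq_div_mul]
  refine (Nat.cast_div_le (α := ℝ)).trans_eq ?_
  push_cast
  field_simp

/-- one dyadic block of primes -/
lemma block (hu1 : ∀ n, ‖u n‖ ≤ 1) (ha : ∀ n, ‖a n‖ ≤ 1)
    (h : ∀ p q : ℕ, p.Prime → q.Prime → p ≠ q →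
      Tendsto (fun N : ℕ => (1 / (N : ℝ)) * ‖∑ n ∈ Icc 1 N, a (p * n) * conj (a (q * n))‖)
        atTop (𝓝 0))
    (D : ℕ) (hD : 0 < D) (Q : Finset ℕ) (hQ : ∀ p ∈ Q, p.Prime ∧ D ≤ p) {η : ℝ} (hη : 0 < η) :
    ∀ᶠ N : ℕ in atTop, ‖∑ p ∈ Q, ∑ m ∈ Icc 1 (N / p), u p * u m * a (p * m)‖
      ≤ (Real.sqrt Q.card / D + η) * N := by
  -- off-diagonal terms are `o(N)`
  have hoff : ∀ᶠ N : ℕ in atTop, ∀ x ∈ Q.offDiag, ‖∑ m ∈ Icc 1 (N / max x.1 x.2),
      a (x.1 * m) * conj (a (x.2 * m))‖ ≤ η ^ 2 / (Q.card ^ 2 + 1) * N := by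
    rw [Filter.eventually_all_finset]
    intro x hx
    rw [mem_offDiag] at hx
    have hp := (hQ _ hx.1).1
    have hq := (hQ _ hx.2.1).1
    have hc : 0 < η ^ 2 / (Q.card ^ 2 + 1) := by positivity
    have h1 := h x.1 x.2 hp hq hx.2.2
    have hmax : 0 < max x.1 x.2 := lt_max_of_lt_left hp.pos
    have h2 : Tendsto (fun N : ℕ => N / max x.1 x.2) atTop atTop :=
      Nat.tendsto_div_const_atTop hmax.ne'
    have h3 := (h1.comp h2).eventually (gt_mem_nhds hc)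
    have h4 := h2.eventually (eventually_gt_atTop 0)
    filter_upwards [h3, h4] with N hN hN0
    simp only [Function.comp] at hN
    have hpos : (0 : ℝ) < ((N / max x.1 x.2 : ℕ) : ℝ) := by exact_mod_cast hN0
    rw [one_div, inv_mul_lt_iff₀ hpos] at hN
    refine hN.le.trans ?_
    rw [mul_comm]
    refine mul_le_mul_of_nonneg_left ?_ hc.le
    exact_mod_cast Nat.div_le_self N _
  filter_upwards [hoff] with N hN
  -- rewrite as a sum over `m`
  set g : ℕ → ℕ → ℂ := fun m p => if m ∈ Icc 1 (N / p) then u p * a (p * m) else 0 with hg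
  have hsub : ∀ p ∈ Q, Icc 1 (N / p) ⊆ Icc 1 (N / D) := fun p hp =>
    Finset.Icc_subset_Icc le_rfl (Nat.div_le_div_left (hQ p hp).2 hD)
  have e1 : ∑ p ∈ Q, ∑ m ∈ Icc 1 (N / p), u p * u m * a (p * m)
      = ∑ m ∈ Icc 1 (N / D), u m * ∑ p ∈ Q, g m p := by
    have : ∀ p ∈ Q, ∑ m ∈ Icc 1 (N / p), u p * u m * a (p * m)
        = ∑ m ∈ Icc 1 (N / D), u m * g m p := by
      intro p hp
      rw [← Finset.sum_subset (hsub p hp) (f := fun m => u m * g m p)]
      · refine Finset.sum_congr rfl fun m hm => ?_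
        simp only [hg, if_pos hm]; ring
      · intro m _ hm
        simp only [hg, if_neg hm, mul_zero]
    rw [Finset.sum_congr rfl this, Finset.sum_comm]
    simp_rw [Finset.mul_sum]
  rw [e1]
  have e2 : ‖∑ m ∈ Icc 1 (N / D), u m * ∑ p ∈ Q, g m p‖
      ≤ ∑ m ∈ Icc 1 (N / D), ‖∑ p ∈ Q, g m p‖ := by
    refine (norm_sum_le _ _).trans (Finset.sum_le_sum fun m _ => ?_)
    rw [norm_mul]
    exact mul_le_of_le_one_left (norm_nonneg _) (hu1 m)
  have e3 : (∑ m ∈ Icc 1 (N / D), ‖∑ p ∈ Q, g m p‖) ^ 2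
      ≤ (N / D : ℝ) * ∑ m ∈ Icc 1 (N / D), ‖∑ p ∈ Q, g m p‖ ^ 2 := by
    refine (sq_sum_le_card_mul_sum_sq).trans ?_
    refine mul_le_mul_of_nonneg_right ?_ (Finset.sum_nonneg fun _ _ => by positivity)
    rw [Nat.card_Icc, Nat.add_sub_cancel]
    exact Nat.cast_div_le
  have e4 : ∑ m ∈ Icc 1 (N / D), ‖∑ p ∈ Q, g m p‖ ^ 2
      ≤ (Q.card / D + η ^ 2) * N := by
    have k1 : ∀ m, ((‖∑ p ∈ Q, g m p‖ ^ 2 : ℝ) : ℂ) = ∑ p ∈ Q, ∑ q ∈ Q, g m p * conj (g m q) := by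
      intro m
      rw [← Finset.sum_mul_sum, ← map_sum, Complex.mul_conj, Complex.normSq_eq_norm_sq]
    have k2 : ((∑ m ∈ Icc 1 (N / D), ‖∑ p ∈ Q, g m p‖ ^ 2 : ℝ) : ℂ)
        = ∑ x ∈ Q ×ˢ Q, ∑ m ∈ Icc 1 (N / D), g m x.1 * conj (g m x.2) := by
      rw [Complex.ofReal_sum]
      simp_rw [k1]
      rw [Finset.sum_comm (s := Q ×ˢ Q)]
      refine Finset.sum_congr rfl fun m _ => ?_
      rw [Finset.sum_product]
    have k3 : ∀ x ∈ Q ×ˢ Q, x.1 = x.2 →
        ‖∑ m ∈ Icc 1 (N / D), g m x.1 * conj (g m x.2)‖ ≤ N / D := by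
      intro x _ hx
      refine (norm_sum_le _ _).trans ?_
      calc ∑ m ∈ Icc 1 (N / D), ‖g m x.1 * conj (g m x.2)‖
          ≤ ∑ m ∈ Icc 1 (N / D), (1 : ℝ) := by
            refine Finset.sum_le_sum fun m _ => ?_
            rw [norm_mul, RCLike.norm_conj]
            have hb : ∀ p, ‖g m p‖ ≤ 1 := by
              intro p
              simp only [hg]
              split_ifs
              · rw [norm_mul]
                exact mul_le_one₀ (hu1 p) (norm_nonneg _) (ha _)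
              · simp
            exact mul_le_one₀ (hb _) (norm_nonneg _) (hb _)
        _ ≤ N / D := by
            rw [Finset.sum_const, nsmul_eq_mul, mul_one, Nat.card_Icc, Nat.add_sub_cancel]
            exact Nat.cast_div_le
    have k4 : ∀ x ∈ Q.offDiag, ‖∑ m ∈ Icc 1 (N / D), g m x.1 * conj (g m x.2)‖
        ≤ η ^ 2 / (Q.card ^ 2 + 1) * N := by
      intro x hx
      have hx' := hx
      rw [mem_offDiag] at hx'
      have hmaxD : D ≤ max x.1 x.2 := (hQ _ hx'.1).2.trans (le_max_left _ _)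
      have hs : Icc 1 (N / max x.1 x.2) ⊆ Icc 1 (N / D) :=
        Finset.Icc_subset_Icc le_rfl (Nat.div_le_div_left hmaxD hD)
      have hpp := (hQ _ hx'.1).1.pos
      have hqp := (hQ _ hx'.2.1).1.pos
      have k5 : ∑ m ∈ Icc 1 (N / D), g m x.1 * conj (g m x.2)
          = u x.1 * conj (u x.2) * ∑ m ∈ Icc 1 (N / max x.1 x.2),
            a (x.1 * m) * conj (a (x.2 * m)) := by
        rw [← Finset.sum_subset hs, Finset.mul_sum]
        · refine Finset.sum_congr rfl fun m hm => ?_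
          rw [mem_Icc] at hm
          have m1 : m ∈ Icc 1 (N / x.1) := mem_Icc.2
            ⟨hm.1, hm.2.trans (Nat.div_le_div_left (le_max_left _ _) hpp)⟩
          have m2 : m ∈ Icc 1 (N / x.2) := mem_Icc.2
            ⟨hm.1, hm.2.trans (Nat.div_le_div_left (le_max_right _ _) hqp)⟩
          simp only [hg, if_pos m1, if_pos m2, map_mul]
          ring
        · intro m _ hm
          have : m ∉ Icc 1 (N / x.1) ∨ m ∉ Icc 1 (N / x.2) := by
            by_contra hcon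
            rw [not_or, not_not, not_not] at hcon
            apply hm
            rw [mem_Icc]
            refine ⟨(mem_Icc.1 hcon.1).1, ?_⟩
            rcases max_cases x.1 x.2 with ⟨h', _⟩ | ⟨h', _⟩
            · rw [h']; exact (mem_Icc.1 hcon.1).2
            · rw [h']; exact (mem_Icc.1 hcon.2).2
          rcases this with h' | h'
          · simp only [hg, if_neg h', zero_mul]
          · simp only [hg, if_neg h', map_zero, mul_zero]
      rw [k5, norm_mul, norm_mul, RCLike.norm_conj]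
      refine (mul_le_of_le_one_left (norm_nonneg _) ?_).trans (hN x hx)
      exact mul_le_one₀ (hu1 _) (norm_nonneg _) (hu1 _)
    have k6 : ∑ m ∈ Icc 1 (N / D), ‖∑ p ∈ Q, g m p‖ ^ 2
        ≤ ∑ x ∈ Q ×ˢ Q, ‖∑ m ∈ Icc 1 (N / D), g m x.1 * conj (g m x.2)‖ := by
      have : (∑ m ∈ Icc 1 (N / D), ‖∑ p ∈ Q, g m p‖ ^ 2 : ℝ)
          = ‖((∑ m ∈ Icc 1 (N / D), ‖∑ p ∈ Q, g m p‖ ^ 2 : ℝ) : ℂ)‖ := by
        rw [Complex.norm_real, Real.norm_of_nonneg]
        exact Finset.sum_nonneg fun _ _ => by positivity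
      rw [this, k2]
      exact norm_sum_le _ _
    refine k6.trans ?_
    rw [← Finset.diag_union_offDiag, Finset.sum_union (Finset.disjoint_diag_offDiag Q)]
    have k7 : ∑ x ∈ Q.diag, ‖∑ m ∈ Icc 1 (N / D), g m x.1 * conj (g m x.2)‖
        ≤ Q.card * (N / D : ℝ) := by
      refine (Finset.sum_le_card_nsmul Q.diag _ (N / D : ℝ) fun x hx => ?_).trans_eq ?_
      · rw [mem_diag] at hx
        exact k3 x (mem_product.2 ⟨hx.1, hx.2 ▸ hx.1⟩) hx.2
      · rw [Finset.diag_card, nsmul_eq_mul]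
    have k8 : ∑ x ∈ Q.offDiag, ‖∑ m ∈ Icc 1 (N / D), g m x.1 * conj (g m x.2)‖
        ≤ η ^ 2 * N := by
      refine (Finset.sum_le_card_nsmul _ _ _ k4).trans ?_
      rw [nsmul_eq_mul]
      have hcard : ((Q.offDiag.card : ℕ) : ℝ) ≤ Q.card ^ 2 + 1 := by
        rw [Finset.offDiag_card]
        have : Q.card * Q.card - Q.card ≤ Q.card ^ 2 := by
          rw [sq]; exact Nat.sub_le _ _
        have : ((Q.card * Q.card - Q.card : ℕ) : ℝ) ≤ (Q.card : ℝ) ^ 2 := by exact_mod_cast this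
        linarith
      calc (Q.offDiag.card : ℝ) * (η ^ 2 / (Q.card ^ 2 + 1) * N)
          ≤ (Q.card ^ 2 + 1) * (η ^ 2 / (Q.card ^ 2 + 1) * N) :=
            mul_le_mul_of_nonneg_right hcard (by positivity)
        _ = η ^ 2 * N := by field_simp
    calc _ ≤ Q.card * (N / D : ℝ) + η ^ 2 * N := add_le_add k7 k8
      _ = _ := by ring
  have hD' : (1 : ℝ) ≤ D := by exact_mod_cast hD
  have e5 : ‖∑ m ∈ Icc 1 (N / D), u m * ∑ p ∈ Q, g m p‖ ^ 2
      ≤ ((Real.sqrt Q.card / D + η) * N) ^ 2 := by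
    calc ‖∑ m ∈ Icc 1 (N / D), u m * ∑ p ∈ Q, g m p‖ ^ 2
        ≤ (∑ m ∈ Icc 1 (N / D), ‖∑ p ∈ Q, g m p‖) ^ 2 :=
          pow_le_pow_left₀ (norm_nonneg _) e2 2
      _ ≤ (N / D : ℝ) * ∑ m ∈ Icc 1 (N / D), ‖∑ p ∈ Q, g m p‖ ^ 2 := e3
      _ ≤ (N / D : ℝ) * ((Q.card / D + η ^ 2) * N) :=
          mul_le_mul_of_nonneg_left e4 (by positivity)
      _ = (Q.card / D ^ 2 + η ^ 2 / D) * N ^ 2 := by field_simp
      _ ≤ (Q.card / D ^ 2 + η ^ 2) * N ^ 2 := by
          have : η ^ 2 / D ≤ η ^ 2 := div_le_self (by positivity) hD'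
          gcongr
      _ ≤ ((Real.sqrt Q.card / D + η) * N) ^ 2 := by
          rw [mul_pow]
          refine mul_le_mul_of_nonneg_right ?_ (by positivity)
          have : (Real.sqrt Q.card / D) ^ 2 = Q.card / D ^ 2 := by
            rw [div_pow, Real.sq_sqrt (Nat.cast_nonneg _)]
          have h0 : 0 ≤ Real.sqrt Q.card / D := by positivity
          nlinarith
  exact (pow_le_pow_iff_left₀ (norm_nonneg _) (by positivity) two_ne_zero).1 e5

lemma abs_sum_le (P : Finset ℕ) (hP : ∀ p ∈ P, p.Prime) (N : ℕ) :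
    ∑ n ∈ Icc 1 N, |om P n - ∑ p ∈ P, (1 : ℝ) / p|
      ≤ Real.sqrt (N * (N * (∑ p ∈ P, (1 : ℝ) / p) + 2 * (∑ p ∈ P, (1 : ℝ) / p) * P.card)) := by
  refine Real.le_sqrt_of_sq_le ((sq_sum_le_card_mul_sum_sq).trans ?_)
  rw [Nat.card_Icc, Nat.add_sub_cancel]
  refine mul_le_mul_of_nonneg_left ?_ (Nat.cast_nonneg _)
  simp only [sq_abs]
  exact turan_kubilius P hP N

lemma geom_bound (J : ℕ) : ∑ j ∈ range J, (Real.sqrt ((2 : ℝ) ^ j) / 2 ^ j) ≤ 4 := by
  have h0 : (0 : ℝ) < Real.sqrt 2 := Real.sqrt_pos.2 (by norm_num)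
  have h1 : ∀ j : ℕ, Real.sqrt ((2 : ℝ) ^ j) / 2 ^ j = (1 / Real.sqrt 2) ^ j := by
    intro j
    have e1 : Real.sqrt ((2 : ℝ) ^ j) = Real.sqrt 2 ^ j := by
      rw [Real.sqrt_eq_iff_mul_self_eq_of_pos (by positivity)]
      rw [← mul_pow, Real.mul_self_sqrt (by norm_num)]
    rw [e1, ← div_pow]
    congr 1
    rw [div_eq_div_iff (by norm_num) h0.ne', Real.mul_self_sqrt (by norm_num)]
    norm_num
  simp_rw [h1]
  have h2 : (1 / Real.sqrt 2) ≤ 3 / 4 := by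
    rw [div_le_div_iff₀ h0 (by norm_num)]
    have : (4 / 3 : ℝ) ≤ Real.sqrt 2 := Real.le_sqrt_of_sq_le (by norm_num)
    linarith
  calc ∑ j ∈ range J, (1 / Real.sqrt 2) ^ j ≤ ∑ j ∈ range J, (3 / 4 : ℝ) ^ j :=
        Finset.sum_le_sum fun j _ => pow_le_pow_left₀ (by positivity) h2 j
    _ ≤ 4 := by
        rw [geom_sum_eq (by norm_num)]
        have : (0 : ℝ) ≤ (3 / 4 : ℝ) ^ J := by positivity
        have e : ((3 / 4 : ℝ) ^ J - 1) / (3 / 4 - 1) = 4 - 4 * (3 / 4 : ℝ) ^ J := by ring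
        rw [e]; linarith

/-- The orthogonality criterion. -/
theorem kbsz (hu1 : ∀ n, ‖u n‖ ≤ 1) (hmul : ∀ m n, Nat.Coprime m n → u (m * n) = u m * u n)
    (ha : ∀ n, ‖a n‖ ≤ 1)
    (h : ∀ p q : ℕ, p.Prime → q.Prime → p ≠ q →
      Tendsto (fun N : ℕ => (1 / (N : ℝ)) * ‖∑ n ∈ Icc 1 N, a (p * n) * conj (a (q * n))‖)
        atTop (𝓝 0)) :
    Tendsto (fun N : ℕ => (1 / (N : ℝ)) * ‖∑ n ∈ Icc 1 N, u n * a n‖) atTop (𝓝 0) := by
  rw [Metric.tendsto_atTop']
  intro ε hε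
  -- choose the primes
  have hdiv : Tendsto (fun J : ℕ => ∑ p ∈ (range (2 ^ J)).filter Nat.Prime, (1 : ℝ) / p)
      atTop atTop := by
    have h1 := not_summable_one_div_on_primes
    have h2 := (not_summable_iff_tendsto_nat_atTop_of_nonneg
      (f := Set.indicator {p | Nat.Prime p} (fun n : ℕ => (1 : ℝ) / n))
      (fun n => Set.indicator_nonneg (fun _ _ => by positivity) n)).1 h1
    have h3 := h2.comp (tendsto_pow_atTop_atTop_of_one_lt (one_lt_two : (1 : ℕ) < 2))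
    refine h3.congr fun J => ?_
    simp only [Function.comp, Finset.sum_filter, Set.indicator_apply, Set.mem_setOf_eq]
  obtain ⟨J, hJ⟩ := (hdiv.eventually (eventually_gt_atTop (max 1 (64 / (ε / 2) ^ 2)))).exists
  set P : Finset ℕ := (range (2 ^ J)).filter Nat.Prime with hPdef
  have hP : ∀ p ∈ P, p.Prime := fun p hp => (mem_filter.1 hp).2
  set A : ℝ := ∑ p ∈ P, (1 : ℝ) / p with hA
  have hA1 : 1 < A := (le_max_left _ _).trans_lt hJ
  have hA2 : 64 / (ε / 2) ^ 2 < A := (le_max_right _ _).trans_lt hJ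
  have hA0 : 0 < A := by linarith
  -- the blocks
  have hmaps : ∀ p ∈ P, Nat.log 2 p ∈ range J := by
    intro p hp
    have h1 := (mem_filter.1 hp).1
    rw [mem_range] at h1 ⊢
    exact Nat.log_lt_of_lt_pow (hP p hp).ne_zero h1
  have hblock : ∀ᶠ N : ℕ in atTop, ∀ j ∈ range J,
      ‖∑ p ∈ P.filter (fun p => Nat.log 2 p = j), ∑ m ∈ Icc 1 (N / p), u p * u m * a (p * m)‖
        ≤ (Real.sqrt ((P.filter (fun p => Nat.log 2 p = j)).card) / (2 ^ j : ℕ)
          + 1 / (J + 1)) * N := by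
    rw [Filter.eventually_all_finset]
    intro j _
    refine block hu1 ha h (2 ^ j) (by positivity) _ (fun p hp => ?_) (by positivity)
    rw [mem_filter] at hp
    refine ⟨hP p hp.1, ?_⟩
    rw [← hp.2]
    exact Nat.pow_log_le_self 2 (hP p hp.1).ne_zero
  -- large N
  have hlarge : ∀ᶠ N : ℕ in atTop, 2 * A * P.card ≤ 3 * A * N := by
    filter_upwards [eventually_ge_atTop P.card] with N hN
    have : (P.card : ℝ) ≤ N := by exact_mod_cast hN
    nlinarith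
  obtain ⟨N0, hN0⟩ := (hblock.and (hlarge.and (eventually_gt_atTop 0))).exists_forall_of_atTop
  refine ⟨N0, fun N hN => ?_⟩
  obtain ⟨hb, hl, hNpos⟩ := hN0 N hN.le
  have hNr : (0 : ℝ) < N := by exact_mod_cast hNpos
  -- main estimate
  have m1 : ‖∑ p ∈ P, ∑ m ∈ Icc 1 (N / p), u p * u m * a (p * m)‖ ≤ 5 * N := by
    rw [← Finset.sum_fiberwise_of_maps_to hmaps]
    refine (norm_sum_le _ _).trans ((Finset.sum_le_sum hb).trans ?_)
    rw [← Finset.sum_mul]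
    refine mul_le_mul_of_nonneg_right ?_ hNr.le
    rw [Finset.sum_add_distrib]
    have k1 : ∑ j ∈ range J, Real.sqrt ((P.filter (fun p => Nat.log 2 p = j)).card)
        / ((2 ^ j : ℕ) : ℝ) ≤ 4 := by
      refine le_trans (Finset.sum_le_sum fun j _ => ?_) (geom_bound J)
      have hc : (P.filter (fun p => Nat.log 2 p = j)).card ≤ 2 ^ j := by
        have hs : P.filter (fun p => Nat.log 2 p = j) ⊆ Ico (2 ^ j) (2 ^ (j + 1)) := by
          intro p hp
          rw [mem_filter] at hp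
          rw [mem_Ico, ← hp.2]
          exact ⟨Nat.pow_log_le_self 2 (hP p hp.1).ne_zero, Nat.lt_pow_succ_log_self one_lt_two p⟩
        refine (card_le_card hs).trans ?_
        rw [Nat.card_Ico, pow_succ]; omega
      have hc' : ((P.filter (fun p => Nat.log 2 p = j)).card : ℝ) ≤ 2 ^ j := by exact_mod_cast hc
      push_cast
      gcongr
    have k2 : ∑ j ∈ range J, (1 : ℝ) / (J + 1) ≤ 1 := by
      rw [Finset.sum_const, card_range, nsmul_eq_mul, mul_one_div, div_le_one (by positivity)]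
      linarith
    linarith
  have m2 : ‖∑ p ∈ P, ∑ m ∈ Icc 1 (N / p), u (p * m) * a (p * m)‖ ≤ 7 * N := by
    have k1 : ‖∑ p ∈ P, ∑ m ∈ Icc 1 (N / p), u (p * m) * a (p * m)
        - ∑ p ∈ P, ∑ m ∈ Icc 1 (N / p), u p * u m * a (p * m)‖ ≤ 2 * N := by
      rw [← Finset.sum_sub_distrib]
      refine (norm_sum_le _ _).trans ((Finset.sum_le_sum fun p hp =>
        prime_sum hu1 hmul ha p (hP p hp) N).trans ?_)
      rw [← Finset.mul_sum, ← Finset.mul_sum]
      have := sum_inv_sq_le P hP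
      nlinarith
    have k2 := norm_sub_norm_le (∑ p ∈ P, ∑ m ∈ Icc 1 (N / p), u (p * m) * a (p * m))
      (∑ p ∈ P, ∑ m ∈ Icc 1 (N / p), u p * u m * a (p * m))
    linarith
  have m3 : ∑ n ∈ Icc 1 N, (om P n : ℂ) * (u n * a n)
      = ∑ p ∈ P, ∑ m ∈ Icc 1 (N / p), u (p * m) * a (p * m) := by
    have k1 : ∀ n, (om P n : ℂ) * (u n * a n) = ∑ p ∈ P, if p ∣ n then u n * a n else 0 := by
      intro n
      unfold om
      push_cast
      rw [Finset.sum_mul]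
      refine Finset.sum_congr rfl fun p _ => ?_
      split_ifs <;> simp
    simp_rw [k1]
    rw [Finset.sum_comm]
    exact Finset.sum_congr rfl fun p hp => sum_dvd_eq (fun n => u n * a n) N p (hP p hp).pos
  have m4 : ‖(A : ℂ) * ∑ n ∈ Icc 1 N, u n * a n - ∑ n ∈ Icc 1 N, (om P n : ℂ) * (u n * a n)‖
      ≤ 2 * Real.sqrt A * N := by
    rw [Finset.mul_sum, ← Finset.sum_sub_distrib]
    have k1 : ∀ n, ‖(A : ℂ) * (u n * a n) - (om P n : ℂ) * (u n * a n)‖ ≤ |om P n - A| := by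
      intro n
      rw [← sub_mul, norm_mul, ← Complex.ofReal_sub, Complex.norm_real, Real.norm_eq_abs,
        abs_sub_comm]
      refine mul_le_of_le_one_right (abs_nonneg _) ?_
      rw [norm_mul]
      exact mul_le_one₀ (hu1 n) (norm_nonneg _) (ha n)
    refine (norm_sum_le _ _).trans ((Finset.sum_le_sum fun n _ => k1 n).trans
      ((abs_sum_le P hP N).trans ?_))
    rw [← hA]
    refine Real.sqrt_le_iff.2 ⟨by positivity, ?_⟩
    have : (2 * Real.sqrt A * N) ^ 2 = 4 * A * N ^ 2 := by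
      rw [mul_pow, mul_pow, Real.sq_sqrt hA0.le]; ring
    rw [this]
    nlinarith
  have m5 : A * ‖∑ n ∈ Icc 1 N, u n * a n‖ ≤ (2 * Real.sqrt A + 7) * N := by
    have k1 : ‖(A : ℂ) * ∑ n ∈ Icc 1 N, u n * a n‖ = A * ‖∑ n ∈ Icc 1 N, u n * a n‖ := by
      rw [norm_mul, Complex.norm_real, Real.norm_of_nonneg hA0.le]
    rw [← k1]
    have k2 := norm_sub_norm_le ((A : ℂ) * ∑ n ∈ Icc 1 N, u n * a n)
      (∑ n ∈ Icc 1 N, (om P n : ℂ) * (u n * a n))
    rw [m3] at k2 m4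
    linarith
  -- conclusion
  rw [Real.dist_eq, sub_zero, abs_of_nonneg (by positivity)]
  have hs1 : 1 < Real.sqrt A := by
    rw [show (1 : ℝ) = Real.sqrt 1 from Real.sqrt_one.symm]
    exact Real.sqrt_lt_sqrt zero_le_one hA1
  have hs2 : 8 / (ε / 2) < Real.sqrt A := by
    refine Real.lt_sqrt_of_sq_lt ?_
    rw [div_pow]
    norm_num at hA2 ⊢
    exact hA2
  have hs3 : Real.sqrt A * Real.sqrt A = A := Real.mul_self_sqrt hA0.le
  have hs4 : 16 < ε * Real.sqrt A := by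
    rw [div_lt_iff₀ (by positivity)] at hs2
    linarith
  have m6 : A * ‖∑ n ∈ Icc 1 N, u n * a n‖ < A * (ε * N) := by
    refine m5.trans_lt ?_
    have k3 : 2 * Real.sqrt A + 7 < A * ε := by
      calc 2 * Real.sqrt A + 7 < 16 * Real.sqrt A := by linarith
        _ < ε * Real.sqrt A * Real.sqrt A := by
            refine mul_lt_mul_of_pos_right hs4 (by linarith)
        _ = A * ε := by rw [mul_assoc, hs3]; ring
    calc (2 * Real.sqrt A + 7) * (N : ℝ) < A * ε * N := mul_lt_mul_of_pos_right k3 hNr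
      _ = A * (ε * N) := by ring
  have m7 := lt_of_mul_lt_mul_left m6 hA0.le
  rw [one_div, inv_mul_lt_iff₀ hNr]
  linarith

end Pool.Agent.Lib.MP_9fe581_an
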