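import Pool.Agent.Lib.MP_9fe581_an.Phase

/-! Blocks of random phases. -/

open Finset
open scoped ComplexConjugate

namespace Pool.Agent.Lib.MP_9fe581_an

variable {C : Type*} [Fintype C] [DecidableEq C]

/-- data of a pair of orbits -/
structure Pat (C : Type*) (p q N : ℕ) where
  w : ℕ → ℂ
  v : ℕ → C → ℝ
  v' : ℕ → C → ℝ
  D : ℤ
  hw : ∀ n, ‖w n‖ ≤ 1
  hv : ∀ j c, 0 ≤ v j c ∧ v j c ≤ 1
  hv' : ∀ j c, 0 ≤ v' j c ∧ v' j c ≤ 1
  big : ∀ j, ∃ c, 1 / 2 ≤ v j c
  big' : ∀ j, ∃ c, 1 / 2 ≤ v' j c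
  sep : ∀ j j', j < p * N → j' < p * N → ∀ c, v j c ≠ 0 → v j' c ≠ 0 → j = j'
  sep' : ∀ j j', j < q * N → j' < q * N → ∀ c, v' j c ≠ 0 → v' j' c ≠ 0 → j = j'
  link : ∀ j i, j < p * N → i < q * N → ∀ c, v j c ≠ 0 → v' i c ≠ 0 → (j : ℤ) - i = D

variable {p q N : ℕ}

namespace Pat

/-- coefficient of the bit `c` in the phase at time `n` -/
noncomputable def co (P : Pat C p q N) (n : ℕ) (c : C) : ℝ :=
  ∑ j ∈ range (p * n), P.v j c - ∑ i ∈ range (q * n), P.v' i c

/-- phase at time `n` -/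
noncomputable def ph (P : Pat C p q N) (e : C → Bool) (n : ℕ) : ℝ :=
  ∑ c, bit (e c) * P.co n c

/-- exponential sum over the block `b` of length `B` -/
noncomputable def S (P : Pat C p q N) (κ : ℝ) (B b : ℕ) (e : C → Bool) : ℂ :=
  ∑ m ∈ range B, P.w (b * B + m) * Complex.exp (Complex.I * ((κ * P.ph e (b * B + m) : ℝ) : ℂ))

/-- exceptional blocks -/
def Exc (P : Pat C p q N) (B b : ℕ) : Prop :=
  ∃ j i, p * (b * B) ≤ j ∧ j < p * ((b + 1) * B) ∧ q * (b * B) ≤ i ∧ i < q * ((b + 1) * B) ∧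
    (j : ℤ) - i = P.D

/-- cells not used before time `n` -/
def Fresh (P : Pat C p q N) (n : ℕ) (c : C) : Prop :=
  (∀ j < p * n, P.v j c = 0) ∧ (∀ i < q * n, P.v' i c = 0)

lemma co_sub (P : Pat C p q N) {m n : ℕ} (h : m ≤ n) (c : C) :
    P.co n c - P.co m c = ∑ j ∈ Ico (p * m) (p * n), P.v j c
      - ∑ i ∈ Ico (q * m) (q * n), P.v' i c := by
  unfold co
  rw [Finset.sum_Ico_eq_sub _ (Nat.mul_le_mul_left p h),
    Finset.sum_Ico_eq_sub _ (Nat.mul_le_mul_left q h)]
  ring

/-- the fresh designated cells of a non-exceptional block -/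
lemma exists_H (P : Pat C p q N) (hp : 0 < p) (hq : 0 < q) {B b : ℕ} (hb : (b + 1) * B ≤ N)
    (hne : ¬ P.Exc B b) :
    ∃ H : Finset C, (∀ c ∈ H, P.Fresh (b * B) c) ∧
      ∀ m m', b * B ≤ m → m ≤ m' → m' ≤ (b + 1) * B →
        ∃ G ⊆ H, m' - m ≤ G.card ∧
          ∀ c ∈ G, 1 / 2 ≤ |P.co m' c - P.co m c| ∧ |P.co m' c - P.co m c| ≤ 1 := by
  classical
  have hbB : b * B ≤ (b + 1) * B := Nat.mul_le_mul_right B (Nat.le_succ b)
  have hpN : p * ((b + 1) * B) ≤ p * N := Nat.mul_le_mul_left p hb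
  have hqN : q * ((b + 1) * B) ≤ q * N := Nat.mul_le_mul_left q hb
  have hpb : p * (b * B) ≤ p * ((b + 1) * B) := Nat.mul_le_mul_left p hbB
  have hqb : q * (b * B) ≤ q * ((b + 1) * B) := Nat.mul_le_mul_left q hbB
  choose cc hcc using P.big
  choose cc' hcc' using P.big'
  have hne1 : ∀ j, P.v j (cc j) ≠ 0 := fun j h => by have := hcc j; rw [h] at this; norm_num at this
  have hne2 : ∀ j, P.v' j (cc' j) ≠ 0 := fun j h => by
    have := hcc' j; rw [h] at this; norm_num at this
  -- no links inside the block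
  have hno : ∀ j i, p * (b * B) ≤ j → j < p * ((b + 1) * B) → q * (b * B) ≤ i →
      i < q * ((b + 1) * B) → ∀ c, P.v j c ≠ 0 → P.v' i c = 0 := by
    intro j i h1 h2 h3 h4 c hc
    by_contra hc'
    exact hne ⟨j, i, h1, h2, h3, h4, P.link j i (by omega) (by omega) c hc hc'⟩
  by_cases hcase : ∀ j i, p * (b * B) ≤ j → j < p * ((b + 1) * B) → i < q * (b * B) →
      ∀ c, P.v j c ≠ 0 → P.v' i c = 0
  · -- the first head is fresh
    refine ⟨(Ico (p * (b * B)) (p * ((b + 1) * B))).image cc, ?_, ?_⟩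
    · intro c hc
      rw [mem_image] at hc
      obtain ⟨j, hj, rfl⟩ := hc
      rw [mem_Ico] at hj
      refine ⟨fun j' hj' => ?_, fun i hi => hcase j i hj.1 hj.2 hi _ (hne1 j)⟩
      by_contra hcon
      have := P.sep j j' (by omega) (by omega) _ (hne1 j) hcon
      omega
    · intro m m' h1 h2 h3
      have hm' : p * m' ≤ p * ((b + 1) * B) := Nat.mul_le_mul_left p h3
      have hm : p * (b * B) ≤ p * m := Nat.mul_le_mul_left p h1
      have hmq' : q * m' ≤ q * ((b + 1) * B) := Nat.mul_le_mul_left q h3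
      have hmq : q * (b * B) ≤ q * m := Nat.mul_le_mul_left q h1
      refine ⟨(Ico (p * m) (p * m')).image cc, Finset.image_subset_image
        (Finset.Ico_subset_Ico hm hm'), ?_, ?_⟩
      · rw [Finset.card_image_of_injOn, Nat.card_Ico, ← Nat.mul_sub]
        · exact Nat.le_mul_of_pos_left _ hp
        · intro j hj j' hj' h
          rw [coe_Ico, Set.mem_Ico] at hj hj'
          refine P.sep j j' (by omega) (by omega) (cc j) (hne1 j) ?_
          rw [h]; exact hne1 j'
      · intro c hc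
        rw [mem_image] at hc
        obtain ⟨j, hj, rfl⟩ := hc
        have hj' := hj
        rw [mem_Ico] at hj'
        have e1 : P.co m' (cc j) - P.co m (cc j) = P.v j (cc j) := by
          rw [P.co_sub h2, Finset.sum_eq_single_of_mem j hj, Finset.sum_eq_zero, sub_zero]
          · intro i hi
            rw [mem_Ico] at hi
            exact hno j i (by omega) (by omega) (by omega) (by omega) _ (hne1 j)
          · intro j2 hj2 hne
            rw [mem_Ico] at hj2
            by_contra hcon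
            exact hne (P.sep j2 j (by omega) (by omega) _ hcon (hne1 j))
        rw [e1, abs_of_nonneg (P.hv _ _).1]
        exact ⟨hcc j, (P.hv _ _).2⟩
  · -- the second head is fresh
    push Not at hcase
    obtain ⟨j0, i0, hj01, hj02, hi0, c0, hc0, hc0'⟩ := hcase
    have hD := P.link j0 i0 (by omega) (by omega) c0 hc0 hc0'
    have hcase2 : ∀ i j, q * (b * B) ≤ i → i < q * ((b + 1) * B) → j < p * (b * B) →
        ∀ c, P.v' i c ≠ 0 → P.v j c = 0 := by
      intro i j h1 h2 h3 c hc
      by_contra hcon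
      have := P.link j i (by omega) (by omega) c hcon hc
      omega
    refine ⟨(Ico (q * (b * B)) (q * ((b + 1) * B))).image cc', ?_, ?_⟩
    · intro c hc
      rw [mem_image] at hc
      obtain ⟨i, hi, rfl⟩ := hc
      rw [mem_Ico] at hi
      refine ⟨fun j hj => hcase2 i j hi.1 hi.2 hj _ (hne2 i), fun i' hi' => ?_⟩
      by_contra hcon
      have := P.sep' i i' (by omega) (by omega) _ (hne2 i) hcon
      omega
    · intro m m' h1 h2 h3
      have hm' : p * m' ≤ p * ((b + 1) * B) := Nat.mul_le_mul_left p h3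
      have hm : p * (b * B) ≤ p * m := Nat.mul_le_mul_left p h1
      have hmq' : q * m' ≤ q * ((b + 1) * B) := Nat.mul_le_mul_left q h3
      have hmq : q * (b * B) ≤ q * m := Nat.mul_le_mul_left q h1
      refine ⟨(Ico (q * m) (q * m')).image cc', Finset.image_subset_image
        (Finset.Ico_subset_Ico hmq hmq'), ?_, ?_⟩
      · rw [Finset.card_image_of_injOn, Nat.card_Ico, ← Nat.mul_sub]
        · exact Nat.le_mul_of_pos_left _ hq
        · intro j hj j' hj' h
          rw [coe_Ico, Set.mem_Ico] at hj hj'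
          refine P.sep' j j' (by omega) (by omega) (cc' j) (hne2 j) ?_
          rw [h]; exact hne2 j'
      · intro c hc
        rw [mem_image] at hc
        obtain ⟨i, hi, rfl⟩ := hc
        have hi' := hi
        rw [mem_Ico] at hi'
        have e1 : P.co m' (cc' i) - P.co m (cc' i) = - P.v' i (cc' i) := by
          rw [P.co_sub h2, Finset.sum_eq_zero, Finset.sum_eq_single_of_mem i hi, zero_sub]
          · intro i2 hi2 hne
            rw [mem_Ico] at hi2
            by_contra hcon
            exact hne (P.sep' i2 i (by omega) (by omega) _ hcon (hne2 i))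
          · intro j hj
            rw [mem_Ico] at hj
            by_contra hcon
            exact hne2 i (hno j i (by omega) (by omega) (by omega) (by omega) _ hcon)
        rw [e1, abs_neg, abs_of_nonneg (P.hv' _ _).1]
        exact ⟨hcc' i, (P.hv' _ _).2⟩

lemma co_eq_zero (P : Pat C p q N) {n m : ℕ} (hmn : m ≤ n) {c : C} (hc : P.Fresh n c) :
    P.co m c = 0 := by
  unfold co
  rw [Finset.sum_eq_zero, Finset.sum_eq_zero, sub_zero]
  · intro i hi
    rw [mem_range] at hi
    exact hc.2 i (hi.trans_le (Nat.mul_le_mul_left q hmn))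
  · intro j hj
    rw [mem_range] at hj
    exact hc.1 j (hj.trans_le (Nat.mul_le_mul_left p hmn))

lemma ph_flip (P : Pat C p q N) {n m : ℕ} (hmn : m ≤ n) (T : Finset C)
    (hT : ∀ c ∈ T, P.Fresh n c) (e : C → Bool) : P.ph (flip T e) m = P.ph e m := by
  unfold ph
  refine Finset.sum_congr rfl fun c _ => ?_
  by_cases hc : c ∈ T
  · rw [P.co_eq_zero hmn (hT c hc), mul_zero, mul_zero]
  · rw [flip, if_neg hc]

/-- conditional second moment of a non-exceptional block -/
lemma block_moment (P : Pat C p q N) {κ : ℝ} (hκ0 : 0 < κ) (hκ : κ ≤ Real.pi) (hp : 0 < p)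
    (hq : 0 < q) {B b : ℕ} (hb : (b + 1) * B ≤ N) (hne : ¬ P.Exc B b)
    (f : (C → Bool) → ℝ) (hf : ∀ e, 0 ≤ f e)
    (hinv : ∀ T : Finset C, (∀ c ∈ T, P.Fresh (b * B) c) → ∀ e, f (flip T e) = f e) :
    ∑ e, f e * ‖P.S κ B b e‖ ^ 2 ≤ 2 * B / (1 - Real.cos (κ / 4)) * ∑ e, f e := by
  obtain ⟨H, hH, hG⟩ := P.exists_H hp hq hb hne
  have hρ0 : 0 ≤ Real.cos (κ / 4) := by
    refine Real.cos_nonneg_of_neg_pi_div_two_le_of_le ?_ ?_ <;> linarith [Real.pi_pos]
  have hρ1 : Real.cos (κ / 4) < 1 := by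
    rw [← Real.cos_zero]
    exact Real.cos_lt_cos_of_nonneg_of_le_pi le_rfl (by linarith) (by linarith)
  refine sum_mul_le H f _ _ hf (fun T hT => hinv T fun c hc => hH c (mem_powerset.1 hT hc)) ?_
  intro e
  set ρ := Real.cos (κ / 4) with hρ
  set E : ℕ → (C → Bool) → ℂ := fun n e =>
    Complex.exp (Complex.I * ((κ * P.ph e n : ℝ) : ℂ)) with hE
  -- averages of pair correlations
  have key : ∀ m m', b * B ≤ m → m ≤ m' → m' ≤ (b + 1) * B →
      ‖∑ T ∈ H.powerset, E m' (flip T e) * conj (E m (flip T e))‖ ≤ 2 ^ H.card * ρ ^ (m' - m) := by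
    intro m m' h1 h2 h3
    obtain ⟨G, hGH, hcard, hG'⟩ := hG m m' h1 h2 h3
    have e1 : ∀ e', E m' e' * conj (E m e')
        = Complex.exp (Complex.I * ((κ * ∑ c, bit (e' c) * (P.co m' c - P.co m c) : ℝ) : ℂ)) := by
      intro e'
      simp only [hE]
      rw [← Complex.exp_conj, map_mul, Complex.conj_I, Complex.conj_ofReal, ← Complex.exp_add]
      congr 1
      have : ∑ c, bit (e' c) * (P.co m' c - P.co m c) = P.ph e' m' - P.ph e' m := by
        unfold ph
        rw [← Finset.sum_sub_distrib]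
        exact Finset.sum_congr rfl fun c _ => by ring
      rw [this]
      push_cast
      ring
    simp_rw [e1]
    refine (norm_sum_flip_le hκ0 hκ H G hGH _ hG' e).trans ?_
    refine mul_le_mul_of_nonneg_left ?_ (by positivity)
    exact pow_le_pow_of_le_one hρ0 hρ1.le hcard
  have key2 : ∀ m ∈ range B, ∀ m' ∈ range B,
      ‖∑ T ∈ H.powerset, E (b * B + m) (flip T e) * conj (E (b * B + m') (flip T e))‖
        ≤ 2 ^ H.card * ρ ^ (max m m' - min m m') := by
    intro m hm m' hm'
    rw [mem_range] at hm hm'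
    have hB : (b + 1) * B = b * B + B := by ring
    rcases le_total m m' with h | h
    · rw [max_eq_right h, min_eq_left h]
      have k := key (b * B + m) (b * B + m') (by omega) (by omega) (by omega)
      rw [show b * B + m' - (b * B + m) = m' - m by omega] at k
      refine le_trans (le_of_eq ?_) k
      rw [← RCLike.norm_conj, map_sum]
      congr 1
      refine Finset.sum_congr rfl fun T _ => ?_
      rw [map_mul, Complex.conj_conj, mul_comm]
    · rw [max_eq_left h, min_eq_right h]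
      have k := key (b * B + m') (b * B + m) (by omega) (by omega) (by omega)
      rwa [show b * B + m - (b * B + m') = m - m' by omega] at k
  -- expand the square
  have h4 : ((∑ T ∈ H.powerset, ‖P.S κ B b (flip T e)‖ ^ 2 : ℝ) : ℂ)
      = ∑ m ∈ range B, ∑ m' ∈ range B, P.w (b * B + m) * conj (P.w (b * B + m'))
        * ∑ T ∈ H.powerset, E (b * B + m) (flip T e) * conj (E (b * B + m') (flip T e)) := by
    rw [Complex.ofReal_sum]
    have : ∀ e', ((‖P.S κ B b e'‖ ^ 2 : ℝ) : ℂ) = ∑ m ∈ range B, ∑ m' ∈ range B,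
        P.w (b * B + m) * conj (P.w (b * B + m')) * (E (b * B + m) e' * conj (E (b * B + m') e')) := by
      intro e'
      rw [← Complex.normSq_eq_norm_sq, ← Complex.mul_conj, S, map_sum, Finset.sum_mul_sum]
      refine Finset.sum_congr rfl fun m _ => Finset.sum_congr rfl fun m' _ => ?_
      simp only [hE, map_mul]
      ring
    simp_rw [this]
    rw [Finset.sum_comm]
    refine Finset.sum_congr rfl fun m _ => ?_
    rw [Finset.sum_comm]
    refine Finset.sum_congr rfl fun m' _ => ?_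
    rw [Finset.mul_sum]
  have h5 : (∑ T ∈ H.powerset, ‖P.S κ B b (flip T e)‖ ^ 2 : ℝ)
      ≤ ∑ m ∈ range B, ∑ m' ∈ range B, 2 ^ H.card * ρ ^ (max m m' - min m m') := by
    have h6 : (∑ T ∈ H.powerset, ‖P.S κ B b (flip T e)‖ ^ 2 : ℝ)
        = ‖((∑ T ∈ H.powerset, ‖P.S κ B b (flip T e)‖ ^ 2 : ℝ) : ℂ)‖ := by
      rw [Complex.norm_real, Real.norm_of_nonneg (Finset.sum_nonneg fun _ _ => by positivity)]
    rw [h6, h4]
    refine (norm_sum_le _ _).trans (Finset.sum_le_sum fun m hm => ?_)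
    refine (norm_sum_le _ _).trans (Finset.sum_le_sum fun m' hm' => ?_)
    rw [norm_mul, norm_mul, RCLike.norm_conj]
    refine (mul_le_of_le_one_left (norm_nonneg _) ?_).trans (key2 m hm m' hm')
    exact mul_le_one₀ (P.hw _) (norm_nonneg _) (P.hw _)
  refine h5.trans ?_
  simp_rw [← Finset.mul_sum]
  exact mul_le_mul_of_nonneg_left (double_geom hρ0 hρ1 B) (by positivity)

open Classical in
/-- exponential moment over all blocks -/
lemma product_moment (P : Pat C p q N) {κ : ℝ} (hκ0 : 0 < κ) (hκ : κ ≤ Real.pi) (hp : 0 < p)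
    (hq : 0 < q) {B : ℕ} {t : ℝ} (ht : 0 ≤ t) (β : ℕ) (hβ : β * B ≤ N) :
    ∑ e, ∏ b ∈ range β, (1 + t * if P.Exc B b then 0 else ‖P.S κ B b e‖ ^ 2)
      ≤ (1 + t * (2 * B / (1 - Real.cos (κ / 4)))) ^ β * 2 ^ Fintype.card C := by
  have hρ1 : Real.cos (κ / 4) < 1 := by
    rw [← Real.cos_zero]
    exact Real.cos_lt_cos_of_nonneg_of_le_pi le_rfl (by linarith) (by linarith)
  have hK : 0 ≤ 2 * (B : ℝ) / (1 - Real.cos (κ / 4)) := by
    have : 0 < 1 - Real.cos (κ / 4) := by linarith
    positivity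
  induction β with
  | zero => simp
  | succ β ih =>
    have ih' := ih ((Nat.mul_le_mul_right B (Nat.le_succ β)).trans hβ)
    set f : (C → Bool) → ℝ := fun e =>
      ∏ b ∈ range β, (1 + t * if P.Exc B b then 0 else ‖P.S κ B b e‖ ^ 2) with hf
    have hf0 : ∀ e, 0 ≤ f e := fun e => Finset.prod_nonneg fun b _ => by
      split_ifs <;> positivity
    have hfinv : ∀ T : Finset C, (∀ c ∈ T, P.Fresh (β * B) c) → ∀ e, f (flip T e) = f e := by
      intro T hT e
      simp only [hf]
      refine Finset.prod_congr rfl fun b hb => ?_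
      rw [mem_range] at hb
      have : P.S κ B b (flip T e) = P.S κ B b e := by
        unfold S
        refine Finset.sum_congr rfl fun m hm => ?_
        rw [mem_range] at hm
        have hle : b * B + m ≤ β * B := by
          have : (b + 1) * B ≤ β * B := Nat.mul_le_mul_right B hb
          have : (b + 1) * B = b * B + B := by ring
          omega
        rw [P.ph_flip hle T hT]
      rw [this]
    have h1 : ∀ e, ∏ b ∈ range (β + 1), (1 + t * if P.Exc B b then 0 else ‖P.S κ B b e‖ ^ 2)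
        = f e + t * (f e * if P.Exc B β then 0 else ‖P.S κ B β e‖ ^ 2) := by
      intro e
      rw [Finset.prod_range_succ]
      simp only [hf]
      ring
    simp_rw [h1]
    rw [Finset.sum_add_distrib, ← Finset.mul_sum]
    have h2 : ∑ e, f e * (if P.Exc B β then 0 else ‖P.S κ B β e‖ ^ 2)
        ≤ 2 * B / (1 - Real.cos (κ / 4)) * ∑ e, f e := by
      by_cases hE : P.Exc B β
      · simp only [if_pos hE, mul_zero, Finset.sum_const_zero]
        exact mul_nonneg hK (Finset.sum_nonneg fun e _ => hf0 e)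
      · simp only [if_neg hE]
        exact P.block_moment hκ0 hκ hp hq hβ hE f hf0 hfinv
    calc ∑ e, f e + t * ∑ e, f e * (if P.Exc B β then 0 else ‖P.S κ B β e‖ ^ 2)
        ≤ ∑ e, f e + t * (2 * B / (1 - Real.cos (κ / 4)) * ∑ e, f e) :=
          add_le_add le_rfl (mul_le_mul_of_nonneg_left h2 ht)
      _ = (1 + t * (2 * B / (1 - Real.cos (κ / 4)))) * ∑ e, f e := by ring
      _ ≤ (1 + t * (2 * B / (1 - Real.cos (κ / 4)))) *
          ((1 + t * (2 * B / (1 - Real.cos (κ / 4)))) ^ β * 2 ^ Fintype.card C) :=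
          mul_le_mul_of_nonneg_left ih' (by positivity)
      _ = _ := by ring

end Pat

end Pool.Agent.Lib.MP_9fe581_an
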