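import Pool.Agent.Lib.MP_9fe581_an.Select

/-! Tent functions on the circle and separated rotations. -/

open Finset

namespace Pool.Agent.Lib.MP_9fe581_an

/-- tent function around `c/L` -/
noncomputable def tent (L : ℕ) (c : Fin L) (t : UnitAddCircle) : ℝ :=
  max 0 (1 - L * ‖t - (((c : ℕ) / L : ℝ) : UnitAddCircle)‖)

variable {L : ℕ}

lemma tent_nonneg (c : Fin L) (t : UnitAddCircle) : 0 ≤ tent L c t := le_max_left _ _

lemma tent_le_one (c : Fin L) (t : UnitAddCircle) : tent L c t ≤ 1 := by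
  refine max_le zero_le_one ?_
  have : 0 ≤ (L : ℝ) * ‖t - (((c : ℕ) / L : ℝ) : UnitAddCircle)‖ := by positivity
  linarith

lemma continuous_tent (c : Fin L) : Continuous (tent L c) := by
  unfold tent
  fun_prop

lemma tent_lipschitz (c : Fin L) (s t : UnitAddCircle) : |tent L c s - tent L c t| ≤ L * ‖s - t‖ := by
  unfold tent
  refine (abs_max_sub_max_le_max _ _ _ _).trans ?_
  rw [sub_self, abs_zero]
  refine max_le (by positivity) ?_
  have h1 : (1 - (L : ℝ) * ‖s - (((c : ℕ) / L : ℝ) : UnitAddCircle)‖)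
      - (1 - L * ‖t - (((c : ℕ) / L : ℝ) : UnitAddCircle)‖)
      = L * (‖t - (((c : ℕ) / L : ℝ) : UnitAddCircle)‖
        - ‖s - (((c : ℕ) / L : ℝ) : UnitAddCircle)‖) := by ring
  rw [h1, abs_mul, abs_of_nonneg (Nat.cast_nonneg L)]
  refine mul_le_mul_of_nonneg_left ?_ (Nat.cast_nonneg L)
  refine (abs_norm_sub_norm_le _ _).trans_eq ?_
  rw [sub_sub_sub_cancel_right, norm_sub_rev]

lemma norm_lt_of_tent_ne {c : Fin L} {t : UnitAddCircle} (h : tent L c t ≠ 0) :
    ‖t - (((c : ℕ) / L : ℝ) : UnitAddCircle)‖ < 1 / L := by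
  have hL : (0 : ℝ) < L := by
    have := c.pos
    exact_mod_cast this
  by_contra hcon
  push Not at hcon
  apply h
  unfold tent
  refine max_eq_left ?_
  rw [div_le_iff₀' hL] at hcon
  linarith

lemma norm_sub_lt_of_tent_ne {c : Fin L} {s t : UnitAddCircle} (hs : tent L c s ≠ 0)
    (ht : tent L c t ≠ 0) : ‖s - t‖ < 2 / L := by
  have h1 := norm_lt_of_tent_ne hs
  have h2 := norm_lt_of_tent_ne ht
  have h3 := norm_sub_le_norm_sub_add_norm_sub s (((c : ℕ) / L : ℝ) : UnitAddCircle) t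
  rw [norm_sub_rev (((c : ℕ) / L : ℝ) : UnitAddCircle) t] at h3
  have : (2 : ℝ) / L = 1 / L + 1 / L := by ring
  rw [this]
  exact h3.trans_lt (add_lt_add h1 h2)

lemma exists_tent_ge (hL : 0 < L) (t : UnitAddCircle) : ∃ c : Fin L, 1 / 2 ≤ tent L c t := by
  obtain ⟨x, rfl⟩ := QuotientAddGroup.mk_surjective t
  have hLr : (0 : ℝ) < L := by exact_mod_cast hL
  have hLz : (L : ℤ) ≠ 0 := by exact_mod_cast hL.ne'
  set m : ℤ := round (L * x) with hm
  have hmod := Int.emod_nonneg m hLz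
  have hmod2 : m % (L : ℤ) < L := Int.emod_lt_of_pos m (by exact_mod_cast hL)
  refine ⟨⟨(m % (L : ℤ)).toNat, by omega⟩, ?_⟩
  have hc : (((m % (L : ℤ)).toNat : ℕ) : ℝ) = ((m % (L : ℤ) : ℤ) : ℝ) := by
    have : (((m % (L : ℤ)).toNat : ℕ) : ℤ) = m % (L : ℤ) := Int.toNat_of_nonneg hmod
    exact_mod_cast congrArg (fun z : ℤ => (z : ℝ)) this
  unfold tent
  refine le_max_of_le_right ?_
  simp only
  rw [hc]
  have h1 : ‖((x : ℝ) : UnitAddCircle) - ((((m % (L : ℤ) : ℤ) : ℝ) / L : ℝ) : UnitAddCircle)‖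
      ≤ |x - m / L| := by
    have h2 : ((x : ℝ) : UnitAddCircle) - ((((m % (L : ℤ) : ℤ) : ℝ) / L : ℝ) : UnitAddCircle)
        = ((x - m / L : ℝ) : UnitAddCircle) := by
      have h3 : ((m % (L : ℤ) : ℤ) : ℝ) / L = (m : ℝ) / L - ((m / (L : ℤ) : ℤ) : ℝ) := by
        have h4 : (m : ℝ) = (L : ℝ) * ((m / (L : ℤ) : ℤ) : ℝ) + ((m % (L : ℤ) : ℤ) : ℝ) := by
          exact_mod_cast congrArg (fun z : ℤ => (z : ℝ)) (Int.mul_ediv_add_emod m L).symm
        field_simp
        linarith
      have h5 : ((((m / (L : ℤ) : ℤ) : ℝ) : ℝ) : UnitAddCircle) = 0 := by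
        rw [AddCircle.coe_eq_zero_iff]
        exact ⟨m / (L : ℤ), by simp⟩
      rw [h3, AddCircle.coe_sub, AddCircle.coe_sub, h5, sub_zero]
    rw [h2, UnitAddCircle.norm_eq]
    have := abs_sub_round_eq_min (x - m / L)
    exact (round_le (x - m / L) 0).trans_eq (by simp)
  have h6 : |x - m / L| ≤ 1 / (2 * L) := by
    have h7 : x - m / L = (L * x - m) / L := by field_simp
    rw [h7, abs_div, abs_of_pos hLr, div_le_div_iff₀ hLr (by positivity)]
    have := abs_sub_round (L * x)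
    rw [← hm] at this
    nlinarith
  have h8 := mul_le_mul_of_nonneg_left (h1.trans h6) hLr.le
  have h9 : (L : ℝ) * (1 / (2 * L)) = 1 / 2 := by field_simp
  rw [h9] at h8
  linarith

lemma card_tent_ne (t : UnitAddCircle) :
    ((Finset.univ : Finset (Fin L)).filter (fun c => tent L c t ≠ 0)).card ≤ 9 := by
  rcases ((Finset.univ : Finset (Fin L)).filter (fun c => tent L c t ≠ 0)).eq_empty_or_nonempty
    with h | ⟨c0, hc0⟩
  · rw [h]; simp
  rw [mem_filter] at hc0
  have hLr : (0 : ℝ) < L := by exact_mod_cast c0.pos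
  have hsub : ((Finset.univ : Finset (Fin L)).filter (fun c => tent L c t ≠ 0)).image
      (fun c : Fin L => ((c : ℕ) : ℤ)) ⊆ ((Icc (-1 : ℤ) 1) ×ˢ (Icc (-1 : ℤ) 1)).image
      (fun x => ((c0 : ℕ) : ℤ) + x.1 * L + x.2) := by
    intro z hz
    rw [mem_image] at hz
    obtain ⟨c, hc, rfl⟩ := hz
    rw [mem_filter] at hc
    -- distance between the centres
    have h1 : ‖(((c : ℕ) / L : ℝ) : UnitAddCircle) - (((c0 : ℕ) / L : ℝ) : UnitAddCircle)‖ < 2 / L := by
      have a1 := norm_lt_of_tent_ne hc.2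
      have a2 := norm_lt_of_tent_ne hc0.2
      have a3 := norm_sub_le_norm_sub_add_norm_sub (((c : ℕ) / L : ℝ) : UnitAddCircle) t
        (((c0 : ℕ) / L : ℝ) : UnitAddCircle)
      rw [norm_sub_rev (((c : ℕ) / L : ℝ) : UnitAddCircle) t] at a3
      have : (2 : ℝ) / L = 1 / L + 1 / L := by ring
      rw [this]
      exact a3.trans_lt (add_lt_add a1 a2)
    rw [← AddCircle.coe_sub, UnitAddCircle.norm_eq] at h1
    set n := round ((c : ℕ) / L - (c0 : ℕ) / L : ℝ) with hn
    have h2 : |(((c : ℕ) : ℝ) - (c0 : ℕ) - n * L)| < 2 := by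
      have : (((c : ℕ) : ℝ) - (c0 : ℕ) - n * L) = ((c : ℕ) / L - (c0 : ℕ) / L - n : ℝ) * L := by
        field_simp
      rw [this, abs_mul, abs_of_pos hLr]
      rwa [lt_div_iff₀ hLr] at h1
    have h3 : |((c : ℕ) : ℤ) - (c0 : ℕ) - n * L| < 2 := by
      have h4 : ((|((c : ℕ) : ℤ) - (c0 : ℕ) - n * L| : ℤ) : ℝ) < 2 := by
        push_cast; exact h2
      exact_mod_cast h4
    rw [abs_lt] at h3
    have hc1 := c.isLt
    have hc2 := c0.isLt
    have hL1 : 1 ≤ L := c0.pos
    have hn1 : n ≤ 1 := by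
      by_contra hcon
      push Not at hcon
      have : (2 : ℤ) * L ≤ n * L := by nlinarith
      omega
    have hn2 : -1 ≤ n := by
      by_contra hcon
      push Not at hcon
      have : n * L ≤ (-2 : ℤ) * L := by nlinarith
      omega
    rw [mem_image]
    refine ⟨(n, ((c : ℕ) : ℤ) - (c0 : ℕ) - n * L), ?_, by ring⟩
    rw [mem_product, mem_Icc, mem_Icc]
    exact ⟨⟨hn2, hn1⟩, by simp only; omega⟩
  have h4 := Finset.card_le_card hsub
  rw [Finset.card_image_of_injective] at h4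
  · refine h4.trans (Finset.card_image_le.trans ?_)
    simp
  · intro a b hab
    simp only at hab
    exact Fin.ext (by exact_mod_cast hab)

/-- the random function attached to the bits `e` -/
noncomputable def hh (L : ℕ) (e : Fin L → Bool) (t : UnitAddCircle) : ℝ := ∑ c, bit (e c) * tent L c t

lemma bit_nonneg (b : Bool) : 0 ≤ bit b := by unfold bit; split_ifs <;> norm_num
lemma bit_le_one (b : Bool) : bit b ≤ 1 := by unfold bit; split_ifs <;> norm_num

lemma continuous_hh (e : Fin L → Bool) : Continuous (hh L e) := by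
  unfold hh
  exact continuous_finsetSum _ fun c _ => continuous_const.mul (continuous_tent c)

lemma hh_nonneg (e : Fin L → Bool) (t : UnitAddCircle) : 0 ≤ hh L e t :=
  Finset.sum_nonneg fun c _ => mul_nonneg (bit_nonneg _) (tent_nonneg c t)

lemma hh_le (e : Fin L → Bool) (t : UnitAddCircle) : hh L e t ≤ 9 := by
  unfold hh
  rw [← Finset.sum_filter_add_sum_filter_not _ (fun c => tent L c t ≠ 0)]
  have h1 : ∑ c ∈ Finset.univ.filter (fun c => ¬ tent L c t ≠ 0), bit (e c) * tent L c t = 0 := by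
    refine Finset.sum_eq_zero fun c hc => ?_
    rw [mem_filter, not_not] at hc
    rw [hc.2, mul_zero]
  rw [h1, add_zero]
  calc ∑ c ∈ Finset.univ.filter (fun c => tent L c t ≠ 0), bit (e c) * tent L c t
      ≤ ∑ c ∈ Finset.univ.filter (fun c => tent L c t ≠ 0), (1 : ℝ) :=
        Finset.sum_le_sum fun c _ =>
          mul_le_one₀ (bit_le_one _) (tent_nonneg c t) (tent_le_one c t)
    _ ≤ 9 := by
        rw [Finset.sum_const, nsmul_eq_mul, mul_one]
        exact_mod_cast card_tent_ne t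

lemma hh_lipschitz (e : Fin L → Bool) (s t : UnitAddCircle) :
    |hh L e s - hh L e t| ≤ L * (L * ‖s - t‖) := by
  unfold hh
  rw [← Finset.sum_sub_distrib]
  refine (Finset.abs_sum_le_sum_abs _ _).trans ?_
  calc ∑ c, |bit (e c) * tent L c s - bit (e c) * tent L c t|
      ≤ ∑ c : Fin L, (L : ℝ) * ‖s - t‖ := by
        refine Finset.sum_le_sum fun c _ => ?_
        rw [← mul_sub, abs_mul, abs_of_nonneg (bit_nonneg _)]
        exact (mul_le_of_le_one_left (abs_nonneg _) (bit_le_one _)).trans (tent_lipschitz c s t)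
    _ = _ := by rw [Finset.sum_const, Finset.card_univ, Fintype.card_fin, nsmul_eq_mul]

variable {p q N : ℕ}

/-- pattern of a pair of points of the circle -/
noncomputable def mkPat (hL : 0 < L) (α z z' : UnitAddCircle)
    (hsep : ∀ j : ℕ, 0 < j → j ≤ (p + q) * N → 4 / L ≤ ‖j • α‖)
    (w : ℕ → ℂ) (hw : ∀ n, ‖w n‖ ≤ 1) : Pat (Fin L) p q N :=
  have hLr : (0 : ℝ) < L := by exact_mod_cast hL
  have hsmall : (2 : ℝ) / L < 4 / L := by gcongr; norm_num
  have hsep2 : ∀ (y : UnitAddCircle) (j j' : ℕ), j < (p + q) * N → j' < (p + q) * N → ∀ c,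
      tent L c (y + j • α) ≠ 0 → tent L c (y + j' • α) ≠ 0 → j = j' := by
    intro y j j' hj hj' c h1 h2
    by_contra hne
    wlog hlt : j < j' generalizing j j'
    · exact this j' j hj' hj h2 h1 (Ne.symm hne) (by omega)
    have h3 := norm_sub_lt_of_tent_ne h2 h1
    obtain ⟨d, rfl⟩ := Nat.exists_eq_add_of_le hlt.le
    have h4 : y + (j + d) • α - (y + j • α) = d • α := by
      rw [add_nsmul]; abel
    rw [h4] at h3
    have h5 := hsep d (by omega) (by omega)
    linarith
  { w := w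
    v := fun j c => tent L c (z + j • α)
    v' := fun i c => tent L c (z' + i • α)
    D := by
      classical
      exact if h : ∃ x : ℕ × ℕ, x.1 < p * N ∧ x.2 < q * N ∧ ∃ c, tent L c (z + x.1 • α) ≠ 0 ∧
        tent L c (z' + x.2 • α) ≠ 0 then (h.choose.1 : ℤ) - h.choose.2 else 0
    hw := hw
    hv := fun j c => ⟨tent_nonneg _ _, tent_le_one _ _⟩
    hv' := fun j c => ⟨tent_nonneg _ _, tent_le_one _ _⟩
    big := fun j => exists_tent_ge hL _
    big' := fun j => exists_tent_ge hL _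
    sep := by
      intro j j' hj hj' c h1 h2
      have : p * N ≤ (p + q) * N := Nat.mul_le_mul_right N (Nat.le_add_right p q)
      exact hsep2 z j j' (by omega) (by omega) c h1 h2
    sep' := by
      intro j j' hj hj' c h1 h2
      have : q * N ≤ (p + q) * N := Nat.mul_le_mul_right N (Nat.le_add_left q p)
      exact hsep2 z' j j' (by omega) (by omega) c h1 h2
    link := by
      classical
      intro j i hj hi c h1 h2
      have h : ∃ x : ℕ × ℕ, x.1 < p * N ∧ x.2 < q * N ∧ ∃ c, tent L c (z + x.1 • α) ≠ 0 ∧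
        tent L c (z' + x.2 • α) ≠ 0 := ⟨(j, i), hj, hi, c, h1, h2⟩
      rw [dif_pos h]
      obtain ⟨k1, k2, c', k3, k4⟩ := h.choose_spec
      set j0 := h.choose.1
      set i0 := h.choose.2
      have e1 := norm_sub_lt_of_tent_ne h1 h2
      have e2 := norm_sub_lt_of_tent_ne k3 k4
      have e3 : ‖(z + j • α - (z' + i • α)) - (z + j0 • α - (z' + i0 • α))‖ < 4 / L := by
        refine (norm_sub_le _ _).trans_lt ?_
        have : (4 : ℝ) / L = 2 / L + 2 / L := by ring
        rw [this]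
        exact add_lt_add e1 e2
      have e4 : (z + j • α - (z' + i • α)) - (z + j0 • α - (z' + i0 • α))
          = (j + i0) • α - (j0 + i) • α := by
        rw [add_nsmul, add_nsmul]; abel
      rw [e4] at e3
      have hpq : (p + q) * N = p * N + q * N := by ring
      have : j + i0 = j0 + i := by
        rcases lt_trichotomy (j + i0) (j0 + i) with hlt | heq | hgt
        · exfalso
          obtain ⟨d, hd⟩ := Nat.exists_eq_add_of_le hlt.le
          rw [hd, norm_sub_rev, add_nsmul α (j + i0) d, add_sub_cancel_left] at e3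
          have := hsep d (by omega) (by omega)
          linarith
        · exact heq
        · exfalso
          obtain ⟨d, hd⟩ := Nat.exists_eq_add_of_le hgt.le
          rw [hd, add_nsmul α (j0 + i) d, add_sub_cancel_left] at e3
          have := hsep d (by omega) (by omega)
          linarith
      omega }

/-- from eigenvalues of large order to well separated rotations -/
lemma exists_sep (α : UnitAddCircle) (K : ℕ) (hK : 0 < K)
    (hα : ∀ n : ℕ, 0 < n → n ≤ K → n • α ≠ 0) :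
    ∃ W : ℕ, K ≤ 2 * W + 1 ∧ ∀ j : ℕ, 0 < j → j ≤ W → 1 / (4 * W + 2 : ℝ) ≤ ‖j • α‖ := by
  obtain ⟨x, rfl⟩ := QuotientAddGroup.mk_surjective α
  change ∃ W : ℕ, K ≤ 2 * W + 1 ∧ ∀ j : ℕ, 0 < j → j ≤ W →
    1 / (4 * W + 2 : ℝ) ≤ ‖j • (x : UnitAddCircle)‖
  change ∀ n : ℕ, 0 < n → n ≤ K → n • (x : UnitAddCircle) ≠ 0 at hα
  -- the minimum
  have hne : (Finset.Icc 1 K).Nonempty := ⟨1, by rw [mem_Icc]; omega⟩
  obtain ⟨k0, hk0, hmin⟩ := Finset.exists_min_image (Finset.Icc 1 K)
    (fun k => ‖k • (x : UnitAddCircle)‖) hne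
  rw [mem_Icc] at hk0
  have hμ : 0 < ‖k0 • (x : UnitAddCircle)‖ := norm_pos_iff.2 (hα k0 (by omega) hk0.2)
  obtain ⟨n, hn⟩ := exists_nat_gt (1 / ‖k0 • (x : UnitAddCircle)‖)
  have hn0 : 0 < n := by
    have : (0 : ℝ) < n := lt_trans (by positivity) hn
    exact_mod_cast this
  obtain ⟨r, hr, hrn⟩ := Real.exists_rat_abs_sub_le_and_den_le x hn0
  set m := r.den with hm
  have hm0 : 0 < m := r.pos
  have hmr : (0 : ℝ) < m := by exact_mod_cast hm0
  have hcast : ∀ j : ℕ, ‖j • (x : UnitAddCircle)‖ = |j * x - round ((j : ℝ) * x)| := by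
    intro j
    have : j • (x : UnitAddCircle) = ((j * x : ℝ) : UnitAddCircle) := by
      rw [← nsmul_eq_mul]; rfl
    rw [this, UnitAddCircle.norm_eq]
  -- `m > K`
  have hmK : K < m := by
    by_contra hcon
    push Not at hcon
    have h1 := hmin m (by rw [mem_Icc]; omega)
    have h2 : ‖m • (x : UnitAddCircle)‖ ≤ 1 / (n + 1) := by
      rw [hcast]
      refine (round_le _ r.num).trans ?_
      have h3 : (m : ℝ) * x - r.num = m * (x - r) := by
        have : (r : ℝ) = r.num / m := by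
          rw [hm]; exact_mod_cast (Rat.num_div_den r).symm
        rw [this]; field_simp
      rw [h3, abs_mul, abs_of_pos hmr]
      calc (m : ℝ) * |x - r| ≤ m * (1 / ((n + 1) * m)) := mul_le_mul_of_nonneg_left hr hmr.le
        _ = 1 / (n + 1) := by field_simp
    have h4 : (1 : ℝ) / (n + 1) < ‖k0 • (x : UnitAddCircle)‖ := by
      rw [div_lt_iff₀ (by positivity)]
      rw [div_lt_iff₀ hμ] at hn
      nlinarith
    linarith
  refine ⟨m / 2, by omega, fun j hj0 hj => ?_⟩
  rw [hcast]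
  set s := round ((j : ℝ) * x) with hs
  have hjm : j * 2 ≤ m := by omega
  -- `|j a - s m| ≥ 1`
  have h5 : (1 : ℝ) ≤ |(j : ℝ) * r.num - s * m| := by
    have h6 : (j : ℤ) * r.num - s * m ≠ 0 := by
      intro h0
      have h7 : (m : ℤ) ∣ (j : ℤ) * r.num := ⟨s, by linarith⟩
      have h8 : IsCoprime (m : ℤ) r.num := by
        rw [Int.isCoprime_iff_gcd_eq_one, Int.gcd_comm]
        exact r.reduced
      have h9 : (m : ℤ) ∣ j := h8.dvd_of_dvd_mul_right h7
      have h10 : m ∣ j := by exact_mod_cast h9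
      have := Nat.le_of_dvd hj0 h10
      omega
    have h7 : (1 : ℤ) ≤ |(j : ℤ) * r.num - s * m| := Int.one_le_abs h6
    exact_mod_cast h7
  have h6 : (j : ℝ) * x - s = ((j : ℝ) * r.num - s * m) / m + j * (x - r) := by
    have : (r : ℝ) = r.num / m := by
      rw [hm]; exact_mod_cast (Rat.num_div_den r).symm
    rw [this]; field_simp; ring
  have h7 : |(j : ℝ) * (x - r)| ≤ 1 / (2 * m) := by
    rw [abs_mul, abs_of_nonneg (Nat.cast_nonneg j)]
    have hj' : (j : ℝ) * 2 ≤ m := by exact_mod_cast hjm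
    have hmn : (m : ℝ) ≤ n := by exact_mod_cast hrn
    calc (j : ℝ) * |x - r| ≤ (m / 2) * (1 / ((n + 1) * m)) := by
          refine mul_le_mul (by linarith) hr (abs_nonneg _) (by positivity)
      _ = 1 / (2 * (n + 1)) := by field_simp
      _ ≤ 1 / (2 * m) := by
          refine one_div_le_one_div_of_le (by positivity) (by linarith)
  have h8 : (1 : ℝ) / m ≤ |((j : ℝ) * r.num - s * m) / m| := by
    rw [abs_div, abs_of_pos hmr]
    exact div_le_div_of_nonneg_right h5 hmr.le
  have h9 : 1 / (2 * m : ℝ) ≤ |(j : ℝ) * x - s| := by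
    rw [h6]
    have h10 := abs_sub_abs_le_abs_sub (((j : ℝ) * r.num - s * m) / m) (-(j * (x - r)))
    rw [sub_neg_eq_add, abs_neg] at h10
    have h11 : (1 : ℝ) / m = 1 / (2 * m) + 1 / (2 * m) := by field_simp; norm_num
    linarith
  refine le_trans ?_ h9
  refine one_div_le_one_div_of_le (by positivity) ?_
  have : m ≤ 2 * (m / 2) + 1 := by omega
  have h12 : (m : ℝ) ≤ 2 * ((m / 2 : ℕ) : ℝ) + 1 := by exact_mod_cast this
  linarith

end Pool.Agent.Lib.MP_9fe581_an
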