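import Mathlib

/-! Zero entropy gives dynamical nets of subexponential size. -/

open Filter Topology Set Dynamics
open scoped Uniformity

namespace Pool.Agent.Lib.MP_9fe581_an

lemma net_of_entropy {X : Type*} [MetricSpace X] [CompactSpace X] {T : X → X}
    (h : coverEntropy T Set.univ ≤ 0) {ε η : ℝ} (hε : 0 < ε) (hη : 0 < η) :
    ∀ᶠ n : ℕ in atTop, ∃ s : Finset X, (∀ x, ∃ y ∈ s, ∀ k < n, dist (T^[k] x) (T^[k] y) < ε) ∧
      (s.card : ℝ) ≤ Real.exp (η * n) := by
  set U : SetRel X X := {p | dist p.1 p.2 < ε} with hU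
  have hUm : U ∈ 𝓤 X := Metric.dist_mem_uniformity hε
  have h1 : coverEntropyEntourage T Set.univ U ≤ 0 :=
    (le_iSup₂ (f := fun (U : SetRel X X) (_ : U ∈ 𝓤 X) => coverEntropyEntourage T Set.univ U)
      U hUm).trans h
  have h2 : ExpGrowth.expGrowthSup (fun n : ℕ => (coverMincard T Set.univ U n).toENNReal)
      < (η : EReal) := lt_of_le_of_lt h1 (by exact_mod_cast hη)
  have h3 := ExpGrowth.eventually_le_exp h2
  filter_upwards [h3] with n hn
  have hfin : coverMincard T Set.univ U n < ⊤ :=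
    coverMincard_finite_of_isCompact_invariant isCompact_univ (Set.mapsTo_univ _ _) hUm n
  obtain ⟨s, hs, hcard⟩ := (coverMincard_finite_iff T Set.univ U n).1 hfin
  refine ⟨s, fun x => ?_, ?_⟩
  · obtain ⟨y, hy, hxy⟩ := hs (Set.mem_univ x)
    refine ⟨y, hy, fun k hk => ?_⟩
    exact (mem_dynEntourage.1 hxy) k hk
  · rw [← hcard] at hn
    have e1 : EReal.exp ((η : EReal) * (n : EReal)) = ENNReal.ofReal (Real.exp (η * n)) := by
      rw [show ((η : EReal) * (n : EReal)) = ((η * n : ℝ) : EReal) by push_cast; rfl]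
      exact EReal.exp_coe _
    rw [e1] at hn
    have : ((s.card : ℕ∞).toENNReal) = ENNReal.ofReal (s.card : ℝ) := by
      simp
    rw [this] at hn
    exact (ENNReal.ofReal_le_ofReal_iff (Real.exp_pos _).le).1 hn

end Pool.Agent.Lib.MP_9fe581_an
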