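import Pool.Agent.Lib.MP_9fe581_an.Cells
import Pool.Agent.Lib.MP_9fe581_an.Entropy

/-! Density of cocycles with small correlations. -/

open Filter Topology Finset
open scoped ComplexConjugate

namespace Pool.Agent.Lib.MP_9fe581_an

variable {X : Type*} [MetricSpace X] [CompactSpace X]

/-- correlation term at time `n` -/
noncomputable def Wt (T : X → X) (F : X → ℂ) (k : ℤ) (p q : ℕ) (φ : X → UnitAddCircle) (n : ℕ)
    (x x' : X) : ℂ :=
  F (T^[p * n] x) * conj (F (T^[q * n] x')) *
    (fourier k (birkhoffSum T φ (p * n) x) * conj (fourier k (birkhoffSum T φ (q * n) x')))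

/-- the phase factor -/
noncomputable def Gf (T : X → X) (k : ℤ) (p q : ℕ) (φ : X → UnitAddCircle) (n : ℕ)
    (x x' : X) : ℂ :=
  fourier k (birkhoffSum T φ (p * n) x) * conj (fourier k (birkhoffSum T φ (q * n) x'))

lemma norm_fourier (k : ℤ) (t : UnitAddCircle) : ‖(fourier k t : ℂ)‖ = 1 := by
  rw [fourier_apply]; exact Circle.norm_coe _

lemma fourier_add_right (k : ℤ) (s t : UnitAddCircle) :
    (fourier k (s + t) : ℂ) = fourier k s * fourier k t := by
  rw [fourier_apply, fourier_apply, fourier_apply, smul_add, AddCircle.toCircle_add, Circle.coe_mul]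

omit [MetricSpace X] [CompactSpace X] in
lemma norm_Gf (T : X → X) (k : ℤ) (p q : ℕ) (φ : X → UnitAddCircle) (n : ℕ)
    (x x' : X) : ‖Gf T k p q φ n x x'‖ = 1 := by
  rw [Gf, norm_mul, RCLike.norm_conj, norm_fourier, norm_fourier, one_mul]

omit [MetricSpace X] [CompactSpace X] in
lemma Wt_add (T : X → X) (F : X → ℂ) (k : ℤ) (p q : ℕ) (φ : X → UnitAddCircle) (a n : ℕ)
    (x x' : X) : Wt T F k p q φ (a + n) x x'
      = Gf T k p q φ a x x' * Wt T F k p q φ n (T^[p * a] x) (T^[q * a] x') := by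
  unfold Wt Gf
  rw [mul_add, mul_add, birkhoffSum_add, birkhoffSum_add, fourier_add_right, fourier_add_right, map_mul,
    add_comm (p * a), add_comm (q * a), Function.iterate_add_apply, Function.iterate_add_apply]
  ring

omit [MetricSpace X] [CompactSpace X] in
lemma norm_Wt_le (T : X → X) {F : X → ℂ} (hF : ∀ x, ‖F x‖ ≤ 1) (k : ℤ) (p q : ℕ)
    (φ : X → UnitAddCircle) (n : ℕ) (x x' : X) : ‖Wt T F k p q φ n x x'‖ ≤ 1 := by
  have h := norm_Gf T k p q φ n x x'
  unfold Gf at h
  unfold Wt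
  rw [norm_mul, h, mul_one, norm_mul, RCLike.norm_conj]
  exact mul_le_one₀ (hF _) (norm_nonneg _) (hF _)

omit [CompactSpace X] in
lemma continuous_birkhoffSum {T : X → X} (hT : Continuous T) {φ : X → UnitAddCircle}
    (hφ : Continuous φ) (n : ℕ) : Continuous (birkhoffSum T φ n) := by
  unfold birkhoffSum
  exact continuous_finsetSum _ fun j _ => hφ.comp (hT.iterate j)

omit [CompactSpace X] in
lemma continuous_Wt {T : X → X} (hT : Continuous T) {F : X → ℂ} (hF : Continuous F) (k : ℤ)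
    (p q : ℕ) {φ : X → UnitAddCircle} (hφ : Continuous φ) (n : ℕ) :
    Continuous (fun x : X × X => Wt T F k p q φ n x.1 x.2) := by
  unfold Wt
  have h1 : Continuous (fun x : X × X => F (T^[p * n] x.1)) :=
    hF.comp ((hT.iterate _).comp continuous_fst)
  have h2 : Continuous (fun x : X × X => F (T^[q * n] x.2)) :=
    hF.comp ((hT.iterate _).comp continuous_snd)
  have h3 : Continuous (fun x : X × X => (fourier k (birkhoffSum T φ (p * n) x.1) : ℂ)) :=
    (fourier k).continuous.comp ((continuous_birkhoffSum hT hφ _).comp continuous_fst)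
  have h4 : Continuous (fun x : X × X => (fourier k (birkhoffSum T φ (q * n) x.2) : ℂ)) :=
    (fourier k).continuous.comp ((continuous_birkhoffSum hT hφ _).comp continuous_snd)
  exact (h1.mul (Complex.continuous_conj.comp h2)).mul (h3.mul (Complex.continuous_conj.comp h4))

/-- phase of the perturbation -/
noncomputable def Psi (L : ℕ) (e : Fin L → Bool) (α : UnitAddCircle) (p q n : ℕ)
    (z z' : UnitAddCircle) : ℝ :=
  ∑ j ∈ range (p * n), hh L e (z + j • α) - ∑ i ∈ range (q * n), hh L e (z' + i • α)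

lemma Psi_add (L : ℕ) (e : Fin L → Bool) (α : UnitAddCircle) (p q a n : ℕ)
    (z z' : UnitAddCircle) : Psi L e α p q (a + n) z z'
      = Psi L e α p q a z z' + Psi L e α p q n (z + (p * a) • α) (z' + (q * a) • α) := by
  unfold Psi
  rw [mul_add, mul_add, Finset.sum_range_add, Finset.sum_range_add]
  have : ∀ (y : UnitAddCircle) (s i : ℕ), y + (s + i) • α = y + s • α + i • α := fun y s i => by
    rw [add_nsmul, add_assoc]
  simp_rw [this]
  ring

lemma ph_mkPat {L p q N : ℕ} (hL : 0 < L) (α z z' : UnitAddCircle)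
    (hsep : ∀ j : ℕ, 0 < j → j ≤ (p + q) * N → 4 / L ≤ ‖j • α‖)
    (w : ℕ → ℂ) (hw : ∀ n, ‖w n‖ ≤ 1) (e : Fin L → Bool) (n : ℕ) :
    (mkPat hL α z z' hsep w hw).ph e n = Psi L e α p q n z z' := by
  unfold Pat.ph Pat.co Psi hh
  simp only [mkPat]
  simp_rw [mul_sub, Finset.mul_sum]
  rw [Finset.sum_sub_distrib, Finset.sum_comm, Finset.sum_comm (s := range (q * n))]

lemma norm_exp_sub_le (a b : ℝ) :
    ‖Complex.exp (Complex.I * (a : ℂ)) - Complex.exp (Complex.I * (b : ℂ))‖ ≤ |a - b| := by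
  have h1 : Complex.exp (Complex.I * (a : ℂ)) - Complex.exp (Complex.I * (b : ℂ))
      = Complex.exp (Complex.I * (b : ℂ)) * (Complex.exp (Complex.I * ((a - b : ℝ) : ℂ)) - 1) := by
    rw [mul_sub, ← Complex.exp_add, mul_one]
    congr 2
    push_cast; ring
  rw [h1, norm_mul, mul_comm Complex.I (b : ℂ), Complex.norm_exp_ofReal_mul_I, one_mul]
  have := Real.norm_exp_I_mul_ofReal_sub_one_le (x := a - b)
  simpa using this

lemma Psi_lipschitz (L : ℕ) (e : Fin L → Bool) (α : UnitAddCircle) (p q n : ℕ)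
    (z z' y y' : UnitAddCircle) {r : ℝ} (h1 : ‖z - y‖ ≤ r) (h2 : ‖z' - y'‖ ≤ r) :
    |Psi L e α p q n z z' - Psi L e α p q n y y'| ≤ ((p + q) * n : ℕ) * (L * (L * r)) := by
  have key : ∀ (u v : UnitAddCircle) (s : ℕ), ‖u - v‖ ≤ r →
      |∑ j ∈ range s, hh L e (u + j • α) - ∑ j ∈ range s, hh L e (v + j • α)| ≤ s * (L * (L * r)) := by
    intro u v s huv
    rw [← Finset.sum_sub_distrib]
    refine (Finset.abs_sum_le_sum_abs _ _).trans ?_
    calc ∑ j ∈ range s, |hh L e (u + j • α) - hh L e (v + j • α)|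
        ≤ ∑ j ∈ range s, (L : ℝ) * (L * r) := by
          refine Finset.sum_le_sum fun j _ => (hh_lipschitz e _ _).trans ?_
          rw [add_sub_add_right_eq_sub]
          gcongr
      _ = _ := by rw [Finset.sum_const, card_range, nsmul_eq_mul]
  unfold Psi
  have e1 : (∑ j ∈ range (p * n), hh L e (z + j • α) - ∑ i ∈ range (q * n), hh L e (z' + i • α))
      - (∑ j ∈ range (p * n), hh L e (y + j • α) - ∑ i ∈ range (q * n), hh L e (y' + i • α))
      = (∑ j ∈ range (p * n), hh L e (z + j • α) - ∑ j ∈ range (p * n), hh L e (y + j • α))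
        - (∑ i ∈ range (q * n), hh L e (z' + i • α) - ∑ i ∈ range (q * n), hh L e (y' + i • α)) := by
    ring
  rw [e1]
  refine (abs_sub _ _).trans ((add_le_add (key z y _ h1) (key z' y' _ h2)).trans_eq ?_)
  push_cast; ring

/-- local block sum -/
noncomputable def Lam (T : X → X) (F : X → ℂ) (k : ℤ) (p q : ℕ) (φ : X → UnitAddCircle)
    (L : ℕ) (e : Fin L → Bool) (α : UnitAddCircle) (κ : ℝ) (B : ℕ) (u u' : X)
    (z z' : UnitAddCircle) : ℂ :=
  ∑ m ∈ range B, Wt T F k p q φ m u u'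
    * Complex.exp (Complex.I * ((κ * Psi L e α p q m z z' : ℝ) : ℂ))

omit [MetricSpace X] [CompactSpace X] in
lemma norm_block (T : X → X) (F : X → ℂ) (k : ℤ) (p q : ℕ) (φ : X → UnitAddCircle)
    (L : ℕ) (e : Fin L → Bool) (α : UnitAddCircle) (κ : ℝ) (B a : ℕ) (x x' : X)
    (z z' : UnitAddCircle) :
    ‖∑ m ∈ range B, Wt T F k p q φ (a + m) x x'
      * Complex.exp (Complex.I * ((κ * Psi L e α p q (a + m) z z' : ℝ) : ℂ))‖
    = ‖Lam T F k p q φ L e α κ B (T^[p * a] x) (T^[q * a] x') (z + (p * a) • α)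
        (z' + (q * a) • α)‖ := by
  have h1 : ∑ m ∈ range B, Wt T F k p q φ (a + m) x x'
      * Complex.exp (Complex.I * ((κ * Psi L e α p q (a + m) z z' : ℝ) : ℂ))
      = (Gf T k p q φ a x x' * Complex.exp (Complex.I * ((κ * Psi L e α p q a z z' : ℝ) : ℂ)))
        * Lam T F k p q φ L e α κ B (T^[p * a] x) (T^[q * a] x') (z + (p * a) • α)
          (z' + (q * a) • α) := by
    unfold Lam
    rw [Finset.mul_sum]
    refine Finset.sum_congr rfl fun m _ => ?_
    rw [Wt_add, Psi_add, mul_add κ, Complex.ofReal_add, mul_add Complex.I, Complex.exp_add]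
    ring
  rw [h1, norm_mul, norm_mul, norm_Gf, mul_comm Complex.I, Complex.norm_exp_ofReal_mul_I, one_mul,
    one_mul]

omit [MetricSpace X] [CompactSpace X] in
lemma norm_Lam_le (T : X → X) {F : X → ℂ} (hF : ∀ x, ‖F x‖ ≤ 1) (k : ℤ) (p q : ℕ)
    (φ : X → UnitAddCircle) (L : ℕ) (e : Fin L → Bool) (α : UnitAddCircle) {κ : ℝ} (hκ : 0 ≤ κ)
    (B : ℕ) (u u' v v' : X) (z z' y y' : UnitAddCircle) {τ r : ℝ}
    (hW : ∀ m < B, ‖Wt T F k p q φ m u u' - Wt T F k p q φ m v v'‖ ≤ τ)
    (h1 : ‖z - y‖ ≤ r) (h2 : ‖z' - y'‖ ≤ r) :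
    ‖Lam T F k p q φ L e α κ B u u' z z'‖ ≤ ‖Lam T F k p q φ L e α κ B v v' y y'‖
      + B * (τ + κ * (((p + q) * B : ℕ) * (L * (L * r)))) := by
  have hr : 0 ≤ r := (norm_nonneg _).trans h1
  have h3 : ‖Lam T F k p q φ L e α κ B u u' z z' - Lam T F k p q φ L e α κ B v v' y y'‖
      ≤ B * (τ + κ * (((p + q) * B : ℕ) * (L * (L * r)))) := by
    unfold Lam
    rw [← Finset.sum_sub_distrib]
    refine (norm_sum_le _ _).trans ?_
    calc ∑ m ∈ range B, ‖Wt T F k p q φ m u u'
            * Complex.exp (Complex.I * ((κ * Psi L e α p q m z z' : ℝ) : ℂ))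
          - Wt T F k p q φ m v v'
            * Complex.exp (Complex.I * ((κ * Psi L e α p q m y y' : ℝ) : ℂ))‖
        ≤ ∑ m ∈ range B, (τ + κ * (((p + q) * B : ℕ) * (L * (L * r)))) := by
          refine Finset.sum_le_sum fun m hm => ?_
          rw [mem_range] at hm
          have e1 : Wt T F k p q φ m u u'
              * Complex.exp (Complex.I * ((κ * Psi L e α p q m z z' : ℝ) : ℂ))
              - Wt T F k p q φ m v v'
              * Complex.exp (Complex.I * ((κ * Psi L e α p q m y y' : ℝ) : ℂ))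
              = (Wt T F k p q φ m u u' - Wt T F k p q φ m v v')
                * Complex.exp (Complex.I * ((κ * Psi L e α p q m z z' : ℝ) : ℂ))
              + Wt T F k p q φ m v v'
                * (Complex.exp (Complex.I * ((κ * Psi L e α p q m z z' : ℝ) : ℂ))
                  - Complex.exp (Complex.I * ((κ * Psi L e α p q m y y' : ℝ) : ℂ))) := by ring
          rw [e1]
          refine (norm_add_le _ _).trans (add_le_add ?_ ?_)
          · rw [norm_mul, mul_comm Complex.I, Complex.norm_exp_ofReal_mul_I, mul_one]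
            exact hW m hm
          · rw [norm_mul]
            refine (mul_le_of_le_one_left (norm_nonneg _) (norm_Wt_le T hF k p q φ m v v')).trans ?_
            refine (norm_exp_sub_le _ _).trans ?_
            rw [← mul_sub, abs_mul, abs_of_nonneg hκ]
            refine mul_le_mul_of_nonneg_left ((Psi_lipschitz L e α p q m z z' y y' h1 h2).trans ?_)
              hκ
            refine mul_le_mul_of_nonneg_right ?_ (by positivity)
            exact_mod_cast Nat.mul_le_mul_left (p + q) hm.le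
      _ = _ := by rw [Finset.sum_const, card_range, nsmul_eq_mul]
  have h4 := norm_sub_norm_le (Lam T F k p q φ L e α κ B u u' z z')
    (Lam T F k p q φ L e α κ B v v' y y')
  linarith

/-- the perturbed cocycle -/
noncomputable def pert (φ : C(X, UnitAddCircle)) (g : C(X, UnitAddCircle)) (δ : ℝ) (L : ℕ)
    (e : Fin L → Bool) : C(X, UnitAddCircle) :=
  ⟨fun x => φ x + ((δ * hh L e (g x) : ℝ) : UnitAddCircle), by
    have h1 : Continuous fun x => (δ * hh L e (g x) : ℝ) :=
      continuous_const.mul ((continuous_hh e).comp g.continuous)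
    exact φ.continuous.add ((AddCircle.continuous_mk' (1 : ℝ)).comp h1)⟩

lemma dist_pert_lt (φ : C(X, UnitAddCircle)) (g : C(X, UnitAddCircle)) {δ δ₀ : ℝ} (hδ : 0 ≤ δ)
    (hδ₀ : 9 * δ < δ₀) (L : ℕ) (e : Fin L → Bool) : dist (pert φ g δ L e) φ < δ₀ := by
  have hpos : 0 < δ₀ := by linarith
  rw [ContinuousMap.dist_lt_iff hpos]
  intro x
  rw [dist_eq_norm]
  show ‖φ x + ((δ * hh L e (g x) : ℝ) : UnitAddCircle) - φ x‖ < δ₀
  rw [add_sub_cancel_left]
  refine lt_of_le_of_lt ?_ hδ₀
  rw [UnitAddCircle.norm_eq]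
  refine (round_le _ 0).trans ?_
  have h1 := hh_nonneg e (g x)
  have h2 := hh_le e (g x)
  rw [Int.cast_zero, sub_zero, abs_of_nonneg (mul_nonneg hδ h1)]
  nlinarith

omit [MetricSpace X] [CompactSpace X] in
lemma iterate_eigen {T : X → X} {g : X → UnitAddCircle} {α : UnitAddCircle}
    (hg : ∀ x, g (T x) = g x + α) (n : ℕ) (x : X) : g (T^[n] x) = g x + n • α := by
  induction n with
  | zero => simp
  | succ n ih => rw [Function.iterate_succ_apply', hg, ih, succ_nsmul, add_assoc]

lemma Wt_pert {T : X → X} (F : X → ℂ) (k : ℤ) (p q : ℕ) (φ g : C(X, UnitAddCircle))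
    {α : UnitAddCircle} (hg : ∀ x, g (T x) = g x + α) (δ : ℝ) (L : ℕ) (e : Fin L → Bool) (n : ℕ)
    (x x' : X) : Wt T F k p q (pert φ g δ L e) n x x'
      = Wt T F k p q φ n x x'
        * Complex.exp (Complex.I * ((2 * Real.pi * k * δ * Psi L e α p q n (g x) (g x') : ℝ) : ℂ)) := by
  have h1 : ∀ (s : ℕ) (y : X), birkhoffSum T (pert φ g δ L e) s y
      = birkhoffSum T φ s y + ((δ * ∑ j ∈ range s, hh L e (g y + j • α) : ℝ) : UnitAddCircle) := by
    intro s y
    unfold birkhoffSum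
    have e1 : ((δ * ∑ j ∈ range s, hh L e (g y + j • α) : ℝ) : UnitAddCircle)
        = ∑ j ∈ range s, ((δ * hh L e (g y + j • α) : ℝ) : UnitAddCircle) := by
      rw [Finset.mul_sum]
      exact map_sum (QuotientAddGroup.mk' (AddSubgroup.zmultiples (1 : ℝ))) _ _
    rw [e1, ← Finset.sum_add_distrib]
    refine Finset.sum_congr rfl fun j _ => ?_
    show φ (T^[j] y) + ((δ * hh L e (g (T^[j] y)) : ℝ) : UnitAddCircle) = _
    rw [iterate_eigen hg]
  have h2 : ∀ y : ℝ, (fourier k ((y : ℝ) : UnitAddCircle) : ℂ)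
      = Complex.exp (Complex.I * ((2 * Real.pi * k * y : ℝ) : ℂ)) := by
    intro y
    rw [fourier_coe_apply]
    congr 1
    push_cast
    ring
  unfold Wt
  rw [h1, h1, fourier_add_right, fourier_add_right, h2, h2, map_mul, ← Complex.exp_conj, map_mul,
    Complex.conj_I, Complex.conj_ofReal]
  have h3 : Complex.exp (Complex.I * ((2 * Real.pi * k * δ * Psi L e α p q n (g x) (g x') : ℝ) : ℂ))
      = Complex.exp (Complex.I * ((2 * Real.pi * k *
          (δ * ∑ j ∈ range (p * n), hh L e (g x + j • α)) : ℝ) : ℂ))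
        * Complex.exp (-Complex.I * ((2 * Real.pi * k *
          (δ * ∑ j ∈ range (q * n), hh L e (g x' + j • α)) : ℝ) : ℂ)) := by
    rw [← Complex.exp_add]
    congr 1
    unfold Psi
    push_cast
    ring
  rw [h3]
  ring

end Pool.Agent.Lib.MP_9fe581_an
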