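import Pool.Agent.Lib.MP_9fe581_an.Dense

/-! The density theorem. -/

open Filter Topology Finset
open scoped ComplexConjugate

namespace Pool.Agent.Lib.MP_9fe581_an

lemma sum_range_blocks (f : ℕ → ℂ) (M B : ℕ) :
    ∑ n ∈ range (M * B), f n = ∑ b ∈ range M, ∑ m ∈ range B, f (b * B + m) := by
  induction M with
  | zero => simp
  | succ M ih =>
    rw [Nat.add_mul, one_mul, Finset.sum_range_add, ih, Finset.sum_range_succ]

variable {X : Type*} [MetricSpace X] [CompactSpace X]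

set_option maxHeartbeats 4000000 in
theorem dense_step {T : X → X} (hT : Continuous T)
    (hent : Dynamics.coverEntropy T Set.univ ≤ 0)
    (heig : ∀ K : ℕ, ∃ (g : C(X, UnitAddCircle)) (α : UnitAddCircle),
      (∀ n : ℕ, 0 < n → n ≤ K → n • α ≠ 0) ∧ ∀ x, g (T x) = g x + α)
    {p q : ℕ} (hq : 0 < q) (hpq : q < p) {k : ℕ} (hk : 0 < k) (F : C(X, ℂ))
    (hF : ∀ x, ‖F x‖ ≤ 1) (φ₀ : C(X, UnitAddCircle)) {δ₀ ε : ℝ} (hδ₀ : 0 < δ₀) (hε : 0 < ε)
    (M₀ : ℕ) :
    ∃ φ : C(X, UnitAddCircle), dist φ φ₀ < δ₀ ∧ ∃ N, M₀ ≤ N ∧ 0 < N ∧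
      ∀ x x', ‖∑ n ∈ range N, Wt T F k p q φ n x x'‖ < ε * N := by
  classical
  have hp : 0 < p := hq.trans hpq
  have hkr : (0 : ℝ) < k := by exact_mod_cast hk
  have hpr : (0 : ℝ) < p := by exact_mod_cast hp
  have hqr : (0 : ℝ) < q := by exact_mod_cast hq
  have hpi := Real.pi_pos
  -- amplitude
  set δ : ℝ := min (δ₀ / 10) (1 / (2 * k)) with hδdef
  have hδ : 0 < δ := lt_min (by positivity) (by positivity)
  have hδ9 : 9 * δ < δ₀ := by
    have : δ ≤ δ₀ / 10 := min_le_left _ _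
    linarith
  set κ : ℝ := 2 * Real.pi * k * δ with hκdef
  have hκ0 : 0 < κ := by positivity
  have hκ : κ ≤ Real.pi := by
    have h1 : δ ≤ 1 / (2 * k) := min_le_right _ _
    calc κ ≤ 2 * Real.pi * k * (1 / (2 * k)) := by rw [hκdef]; gcongr
      _ = Real.pi := by field_simp
  -- number of blocks parameters
  obtain ⟨R, hR⟩ := exists_nat_gt (6 / ε)
  have hR0 : 0 < R := by
    have : (0 : ℝ) < R := lt_trans (by positivity) hR
    exact_mod_cast this
  have hRr : (0 : ℝ) < R := by exact_mod_cast hR0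
  have hR' : 1 / (R : ℝ) < ε / 6 := by
    rw [div_lt_iff₀ hε] at hR
    rw [div_lt_iff₀ hRr]
    linarith
  obtain ⟨B, hB0, hB⟩ := exists_bits hκ0 hκ hq hpq (ε₁ := ε / 6) (by positivity) hR0
  have hBr : (0 : ℝ) < B := by exact_mod_cast hB0
  -- uniform continuity of the weights
  set τ : ℝ := ε / 12 with hτdef
  have hτ : 0 < τ := by positivity
  have huc : ∃ ρ > 0, ∀ u u' v v' : X, dist u v < ρ → dist u' v' < ρ → ∀ m < B,
      ‖Wt T F k p q φ₀ m u u' - Wt T F k p q φ₀ m v v'‖ ≤ τ := by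
    have hc : Continuous (fun x : X × X => fun m : Fin B => Wt T F k p q φ₀ m x.1 x.2) :=
      continuous_pi fun m => continuous_Wt hT F.continuous k p q φ₀.continuous m
    have hu := CompactSpace.uniformContinuous_of_continuous hc
    rw [Metric.uniformContinuous_iff] at hu
    obtain ⟨ρ, hρ, hρ2⟩ := hu τ hτ
    refine ⟨ρ, hρ, fun u u' v v' h1 h2 m hm => ?_⟩
    have h3 := hρ2 (a := (u, u')) (b := (v, v')) (by rw [Prod.dist_eq]; exact max_lt h1 h2)
    have h4 := (dist_pi_lt_iff hτ).1 h3 ⟨m, hm⟩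
    rw [dist_eq_norm] at h4
    exact h4.le
  obtain ⟨ρ, hρ, huc⟩ := huc
  -- nets
  set η : ℝ := Real.log 2 / (2 * (p * B)) with hηdef
  have hlog : 0 < Real.log 2 := Real.log_pos (by norm_num)
  have hη : 0 < η := by positivity
  have hnet := net_of_entropy hent hρ hη
  obtain ⟨n₀, hn₀⟩ := eventually_atTop.1 hnet
  -- polynomial versus exponential
  set c₀ : ℝ := κ * ((p + q) * B) * (16 * ((p + q) * B) + 8) ^ 2 / τ + 2 with hc₀
  have hc₀pos : 0 < c₀ := by positivity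
  have hpoly : ∀ᶠ M : ℕ in atTop, c₀ ^ 2 * ((M : ℝ) + 1) ^ 4 < 4 ^ M := by
    have h1 := tendsto_pow_const_div_const_pow_of_one_lt 4 (r := (4 : ℝ)) (by norm_num)
    have h2 : (0 : ℝ) < 1 / (16 * c₀ ^ 2) := by positivity
    filter_upwards [h1.eventually (gt_mem_nhds h2), eventually_ge_atTop 1] with M hM hM1
    have h4 : (0 : ℝ) < 4 ^ M := by positivity
    rw [div_lt_div_iff₀ h4 (by positivity), one_mul] at hM
    have hM1' : (1 : ℝ) ≤ M := by exact_mod_cast hM1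
    have h5 : ((M : ℝ) + 1) ^ 4 ≤ (2 * M) ^ 4 := by
      refine pow_le_pow_left₀ (by positivity) (by linarith) 4
    calc c₀ ^ 2 * ((M : ℝ) + 1) ^ 4 ≤ c₀ ^ 2 * (2 * M) ^ 4 := by gcongr
      _ = (M : ℝ) ^ 4 * (16 * c₀ ^ 2) := by ring
      _ < 4 ^ M := hM
  obtain ⟨M₂, hM₂⟩ := exists_nat_gt (6 * (p + q) / ε)
  obtain ⟨M₃, hM₃⟩ := eventually_atTop.1 hpoly
  set M₁ : ℕ := max (max M₂ M₃) (max M₀ (max n₀ 1)) with hM₁
  -- eigenvalue
  obtain ⟨g, α, hα, hg⟩ := heig (2 * (M₁ * ((p + q) * B)) + 1)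
  obtain ⟨W, hW1, hW2⟩ := exists_sep α _ (Nat.succ_pos _) hα
  have hpqB : 0 < (p + q) * B := Nat.mul_pos (by omega) hB0
  set M : ℕ := W / ((p + q) * B) with hM
  have hMM₁ : M₁ ≤ M := by
    rw [hM, Nat.le_div_iff_mul_le hpqB]
    omega
  have hWM : W < (p + q) * B * (M + 1) := Nat.lt_mul_div_succ W hpqB
  have hMW : (p + q) * (M * B) ≤ W := by
    have := Nat.div_mul_le_self W ((p + q) * B)
    rw [← hM] at this
    calc (p + q) * (M * B) = M * ((p + q) * B) := by ring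
      _ ≤ W := this
  have hM1 : 1 ≤ M := le_trans (le_trans (le_max_right _ _) ((le_max_right _ _).trans
    (le_max_right _ _))) hMM₁
  have hMr : (0 : ℝ) < M := by exact_mod_cast hM1
  set N : ℕ := M * B with hN
  set L : ℕ := 16 * W + 8 with hL
  have hL0 : 0 < L := by omega
  have hLr : (0 : ℝ) < L := by exact_mod_cast hL0
  have hsep : ∀ j : ℕ, 0 < j → j ≤ (p + q) * N → 4 / (L : ℝ) ≤ ‖j • α‖ := by
    intro j hj hj'
    refine le_trans (le_of_eq ?_) (hW2 j hj (hj'.trans hMW))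
    rw [hL]
    push_cast
    rw [div_eq_div_iff (by positivity) (by positivity)]
    ring
  have hLle : (L : ℝ) ≤ (16 * ((p + q) * B) + 8) * (M + 1) := by
    have h1 : (W : ℝ) ≤ (p + q) * B * (M + 1) := by exact_mod_cast hWM.le
    rw [hL]
    push_cast
    nlinarith
  -- net of the circle
  set K : ℕ := ⌈κ * ((p + q) * B) * L ^ 2 / τ⌉₊ + 1 with hK
  have hK0 : 0 < K := Nat.succ_pos _
  have hKr : (0 : ℝ) < K := by exact_mod_cast hK0
  have hKge : κ * ((p + q) * B) * L ^ 2 / τ ≤ K := by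
    rw [hK]
    push_cast
    have := Nat.le_ceil (κ * ((p + q) * B) * L ^ 2 / τ)
    linarith
  have hKle : (K : ℝ) ≤ c₀ * ((M : ℝ) + 1) ^ 2 := by
    have h1 : (⌈κ * ((p + q) * B) * L ^ 2 / τ⌉₊ : ℝ) < κ * ((p + q) * B) * L ^ 2 / τ + 1 :=
      Nat.ceil_lt_add_one (by positivity)
    have h2 : κ * ((p + q) * B) * L ^ 2 / τ
        ≤ κ * ((p + q) * B) * ((16 * ((p + q) * B) + 8) * (M + 1)) ^ 2 / τ := by gcongr
    have h3 : κ * ((p + q) * B) * ((16 * ((p + q) * B) + 8) * (M + 1)) ^ 2 / τ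
        = κ * ((p + q) * B) * (16 * ((p + q) * B) + 8) ^ 2 / τ * ((M : ℝ) + 1) ^ 2 := by ring
    have h4 : (1 : ℝ) ≤ ((M : ℝ) + 1) ^ 2 := by nlinarith
    have h5 : (K : ℝ) = (⌈κ * ((p + q) * B) * L ^ 2 / τ⌉₊ : ℝ) + 1 := by
      rw [hK, Nat.cast_add, Nat.cast_one]
    have h6 : (K : ℝ) ≤ (κ * ((p + q) * B) * L ^ 2 / τ + 1) + 1 := by
      rw [h5]; exact add_le_add h1.le le_rfl
    clear h1 h5
    rw [hc₀, add_mul]
    linarith
  -- net of `X`
  have hn : n₀ ≤ p * N := by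
    have h1 : n₀ ≤ M := le_trans ((le_max_left _ _).trans ((le_max_right _ _).trans
      (le_max_right _ _))) hMM₁
    have h2 : M ≤ N := Nat.le_mul_of_pos_right M hB0
    have h3 : N ≤ p * N := Nat.le_mul_of_pos_left N hp
    omega
  obtain ⟨s, hs, hscard⟩ := hn₀ (p * N) hn
  have hscard2 : (s.card : ℝ) ^ 2 ≤ 2 ^ M := by
    calc (s.card : ℝ) ^ 2 ≤ Real.exp (η * (p * N : ℕ)) ^ 2 :=
          pow_le_pow_left₀ (Nat.cast_nonneg _) hscard 2
      _ = Real.exp (Real.log 2 * M) := by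
          rw [← Real.exp_nat_mul]
          congr 1
          rw [hηdef, hN]
          push_cast
          field_simp
      _ = 2 ^ M := by
          rw [mul_comm, Real.exp_nat_mul, Real.exp_log (by norm_num)]
  -- the patterns
  let P : (↥s × ↥s × Fin K × Fin K) → Pat (Fin L) p q N := fun i =>
    mkPat hL0 α ((((i.2.2.1 : ℕ) / K : ℝ) : UnitAddCircle)) ((((i.2.2.2 : ℕ) / K : ℝ) : UnitAddCircle))
      hsep (fun n => Wt T F k p q φ₀ n i.1 i.2.1) (fun n => norm_Wt_le T hF k p q φ₀ n _ _)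
  have hcard : (Fintype.card (↥s × ↥s × Fin K × Fin K) : ℝ) < 8 ^ M := by
    rw [Fintype.card_prod, Fintype.card_prod, Fintype.card_prod, Fintype.card_coe,
      Fintype.card_fin]
    push_cast
    have h1 : (K : ℝ) ^ 2 < 4 ^ M := by
      have h2 := hM₃ M ((le_max_right _ _).trans ((le_max_left _ _).trans hMM₁))
      refine lt_of_le_of_lt ?_ h2
      calc (K : ℝ) ^ 2 ≤ (c₀ * ((M : ℝ) + 1) ^ 2) ^ 2 := pow_le_pow_left₀ hKr.le hKle 2
        _ = c₀ ^ 2 * ((M : ℝ) + 1) ^ 4 := by ring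
    calc (s.card : ℝ) * (s.card * (K * K)) = (s.card : ℝ) ^ 2 * (K : ℝ) ^ 2 := by ring
      _ ≤ 2 ^ M * (K : ℝ) ^ 2 := by gcongr
      _ < 2 ^ M * 4 ^ M := by gcongr
      _ = 8 ^ M := by rw [← mul_pow]; norm_num
  obtain ⟨e, he⟩ := hB (Fin L) M N le_rfl (↥s × ↥s × Fin K × Fin K) P hcard
  refine ⟨pert φ₀ g δ L e, dist_pert_lt φ₀ g hδ.le hδ9 L e, N, ?_, ?_, ?_⟩
  · have h1 : M₀ ≤ M := le_trans ((le_max_left _ _).trans (le_max_right _ _)) hMM₁
    have h2 : M ≤ N := Nat.le_mul_of_pos_right M hB0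
    omega
  · exact Nat.mul_pos hM1 hB0
  intro x x'
  obtain ⟨y, hys, hy⟩ := hs x
  obtain ⟨y', hys', hy'⟩ := hs x'
  have hcell : ∀ t : UnitAddCircle, ∃ c : Fin K,
      ‖t - (((c : ℕ) / K : ℝ) : UnitAddCircle)‖ ≤ 1 / (2 * K) := by
    intro t
    obtain ⟨c, hc⟩ := exists_tent_ge hK0 t
    refine ⟨c, ?_⟩
    unfold tent at hc
    rcases le_max_iff.1 hc with h | h
    · norm_num at h
    · rw [le_div_iff₀ (by positivity)]
      nlinarith
  obtain ⟨c, hc⟩ := hcell (g x)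
  obtain ⟨c', hc'⟩ := hcell (g x')
  set i : (↥s × ↥s × Fin K × Fin K) := (⟨y, hys⟩, ⟨y', hys'⟩, c, c') with hi
  have hei := he i
  -- block comparison
  have hblock : ∀ b ∈ range M, ‖∑ m ∈ range B, Wt T F k p q (pert φ₀ g δ L e) (b * B + m) x x'‖
      ≤ ‖(P i).S κ B b e‖ + B * (2 * τ) := by
    intro b hb
    rw [mem_range] at hb
    have e1 : ∑ m ∈ range B, Wt T F k p q (pert φ₀ g δ L e) (b * B + m) x x'
        = ∑ m ∈ range B, Wt T F k p q φ₀ (b * B + m) x x'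
          * Complex.exp (Complex.I * ((κ * Psi L e α p q (b * B + m) (g x) (g x') : ℝ) : ℂ)) := by
      refine Finset.sum_congr rfl fun m _ => ?_
      rw [Wt_pert F k p q φ₀ g hg, hκdef]
      push_cast
      rfl
    have e2 : (P i).S κ B b e = ∑ m ∈ range B, Wt T F k p q φ₀ (b * B + m) y y'
          * Complex.exp (Complex.I * ((κ * Psi L e α p q (b * B + m)
            ((((c : ℕ) / K : ℝ) : UnitAddCircle)) ((((c' : ℕ) / K : ℝ) : UnitAddCircle)) : ℝ) : ℂ)) := by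
      unfold Pat.S
      refine Finset.sum_congr rfl fun m _ => ?_
      have e3 : (P i).ph e (b * B + m) = Psi L e α p q (b * B + m)
            ((((c : ℕ) / K : ℝ) : UnitAddCircle)) ((((c' : ℕ) / K : ℝ) : UnitAddCircle)) :=
        ph_mkPat hL0 α _ _ hsep _ _ e _
      rw [e3]
      rfl
    rw [e1, e2, norm_block, norm_block]
    have hbM : p * (b * B) < p * N := by
      refine Nat.mul_lt_mul_of_pos_left ?_ hp
      exact Nat.mul_lt_mul_of_pos_right hb hB0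
    have hbM' : q * (b * B) < p * N :=
      lt_of_le_of_lt (Nat.mul_le_mul_right _ hpq.le) hbM
    refine (norm_Lam_le T hF k p q φ₀ L e α hκ0.le B _ _ (T^[p * (b * B)] y) (T^[q * (b * B)] y')
      _ _ ((((c : ℕ) / K : ℝ) : UnitAddCircle) + (p * (b * B)) • α)
      ((((c' : ℕ) / K : ℝ) : UnitAddCircle) + (q * (b * B)) • α) (τ := τ) (r := 1 / (2 * K))
      ?_ ?_ ?_).trans ?_
    · intro m hm
      exact huc _ _ _ _ (hy _ hbM) (hy' _ hbM') m hm
    · rw [add_sub_add_right_eq_sub]; exact hc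
    · rw [add_sub_add_right_eq_sub]; exact hc'
    · refine add_le_add le_rfl (mul_le_mul_of_nonneg_left ?_ hBr.le)
      have h1 : κ * (((p + q) * B : ℕ) * (L * (L * (1 / (2 * K)))))
          = κ * ((p + q) * B) * (L : ℝ) ^ 2 / (2 * K) := by
        push_cast; field_simp
      rw [h1]
      have h2 : κ * ((p + q) * B) * (L : ℝ) ^ 2 / (2 * K) ≤ τ := by
        rw [div_le_iff₀ (by positivity)]
        rw [div_le_iff₀ hτ] at hKge
        nlinarith
      linarith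
  rw [hN, sum_range_blocks]
  have h1 : ‖∑ b ∈ range M, ∑ m ∈ range B, Wt T F k p q (pert φ₀ g δ L e) (b * B + m) x x'‖
      ≤ B * (ε / 6 * M + M / R + (p + q)) + M * (B * (2 * τ)) := by
    refine (norm_sum_le _ _).trans ((Finset.sum_le_sum hblock).trans ?_)
    rw [Finset.sum_add_distrib, Finset.sum_const, card_range, nsmul_eq_mul]
    exact add_le_add hei le_rfl
  refine h1.trans_lt ?_
  have h2 : ((p : ℝ) + q) < ε / 6 * M := by
    have h3 : (M₂ : ℝ) ≤ M := by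
      exact_mod_cast (le_trans ((le_max_left _ _).trans (le_max_left _ _)) hMM₁)
    have h4 := hM₂.trans_le h3
    rw [div_lt_iff₀ hε] at h4
    linarith
  have h3 : (M : ℝ) / R < ε / 6 * M := by
    rw [div_eq_mul_one_div, mul_comm]
    exact mul_lt_mul_of_pos_right hR' hMr
  rw [hτdef]
  push_cast
  nlinarith

end Pool.Agent.Lib.MP_9fe581_an
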