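import Pool.Agent.Lib.MP_9fe581_an.Residual

/-! Generic circle extensions and multiplicative functions. -/

open Filter Topology Finset
open scoped ComplexConjugate

namespace Pool.Agent.Lib.MP_9fe581_an

/-- All continuous observables along all forward orbits of `S` are asymptotically orthogonal
to `u`. -/
def Disj {Y : Type*} [TopologicalSpace Y] (u : ℕ → ℂ) (S : Y → Y) : Prop :=
  ∀ f : Y → ℂ, Continuous f → ∀ y : Y,
    Tendsto (fun N : ℕ => (1 / (N : ℂ)) * ∑ n ∈ Finset.Icc 1 N, f (S^[n] y) * u n)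
      atTop (𝓝 0)

/-- The circle extension `(x, y) ↦ (T x, φ x + y)`. -/
def skew {X : Type*} (T : X → X) (φ : X → UnitAddCircle) (z : X × UnitAddCircle) :
    X × UnitAddCircle := (T z.1, φ z.1 + z.2)

variable {X : Type*} [MetricSpace X] [CompactSpace X]

omit [MetricSpace X] [CompactSpace X] in
lemma skew_iterate (T : X → X) (φ : X → UnitAddCircle) (n : ℕ) (z : X × UnitAddCircle) :
    (skew T φ)^[n] z = (T^[n] z.1, birkhoffSum T φ n z.1 + z.2) := by
  induction n with
  | zero => simp
  | succ n ih =>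
    rw [Function.iterate_succ_apply', ih, Function.iterate_succ_apply', birkhoffSum_succ]
    unfold skew
    simp only [Prod.mk.injEq, true_and]
    abel

section closure

variable {Y : Type*} [TopologicalSpace Y] [CompactSpace Y]

/-- averages against `u` -/
noncomputable def avg (u : ℕ → ℂ) (S : Y → Y) (y : Y) (N : ℕ) (f : Y → ℂ) : ℂ :=
  (1 / (N : ℂ)) * ∑ n ∈ Finset.Icc 1 N, f (S^[n] y) * u n

lemma norm_avg_sub_le {u : ℕ → ℂ} (hu : ∀ n, ‖u n‖ ≤ 1) (S : Y → Y) (y : Y) (N : ℕ)
    (f h : C(Y, ℂ)) : ‖avg u S y N f - avg u S y N h‖ ≤ ‖f - h‖ := by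
  unfold avg
  rw [← mul_sub, ← Finset.sum_sub_distrib, norm_mul]
  rcases Nat.eq_zero_or_pos N with rfl | hN
  · simp
  have hNr : (0 : ℝ) < N := by exact_mod_cast hN
  have h1 : ‖∑ n ∈ Finset.Icc 1 N, (f (S^[n] y) * u n - h (S^[n] y) * u n)‖ ≤ N * ‖f - h‖ := by
    refine (norm_sum_le _ _).trans ?_
    calc ∑ n ∈ Finset.Icc 1 N, ‖f (S^[n] y) * u n - h (S^[n] y) * u n‖
        ≤ ∑ n ∈ Finset.Icc 1 N, ‖f - h‖ := by
          refine Finset.sum_le_sum fun n _ => ?_
          rw [← sub_mul, norm_mul]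
          refine (mul_le_of_le_one_right (norm_nonneg _) (hu n)).trans ?_
          exact (f - h).norm_coe_le_norm _
      _ = _ := by simp
  rw [norm_div, norm_one, Complex.norm_natCast, one_div, inv_mul_le_iff₀ hNr]
  exact h1

lemma avg_closed {u : ℕ → ℂ} (hu : ∀ n, ‖u n‖ ≤ 1) (S : Y → Y) (y : Y) {A : Set C(Y, ℂ)}
    (hA : ∀ h ∈ A, Tendsto (fun N => avg u S y N h) atTop (𝓝 0)) {f : C(Y, ℂ)}
    (hf : f ∈ closure A) : Tendsto (fun N => avg u S y N f) atTop (𝓝 0) := by
  rw [Metric.tendsto_atTop]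
  intro ε hε
  obtain ⟨h, hhA, hh⟩ := Metric.mem_closure_iff.1 hf (ε / 2) (by positivity)
  obtain ⟨N₀, hN₀⟩ := (Metric.tendsto_atTop.1 (hA h hhA)) (ε / 2) (by positivity)
  refine ⟨N₀, fun N hN => ?_⟩
  have h1 := hN₀ N hN
  rw [dist_zero_right] at h1 ⊢
  have h2 := norm_avg_sub_le hu S y N f h
  rw [dist_eq_norm] at hh
  have h3 := norm_sub_norm_le (avg u S y N f) (avg u S y N h)
  linarith

omit [CompactSpace Y] in
lemma avg_smul (u : ℕ → ℂ) (S : Y → Y) (y : Y) (N : ℕ) (c : ℂ) (f : Y → ℂ) :
    avg u S y N (c • f) = c * avg u S y N f := by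
  have h1 : ∑ n ∈ Finset.Icc 1 N, (c • f) (S^[n] y) * u n
      = c * ∑ n ∈ Finset.Icc 1 N, f (S^[n] y) * u n := by
    rw [Finset.mul_sum]
    refine Finset.sum_congr rfl fun n _ => ?_
    rw [Pi.smul_apply, smul_eq_mul]
    ring
  unfold avg
  rw [h1]
  ring

omit [CompactSpace Y] in
lemma avg_add (u : ℕ → ℂ) (S : Y → Y) (y : Y) (N : ℕ) (f g : Y → ℂ) :
    avg u S y N (f + g) = avg u S y N f + avg u S y N g := by
  have h1 : ∑ n ∈ Finset.Icc 1 N, (f + g) (S^[n] y) * u n
      = ∑ n ∈ Finset.Icc 1 N, f (S^[n] y) * u n + ∑ n ∈ Finset.Icc 1 N, g (S^[n] y) * u n := by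
    rw [← Finset.sum_add_distrib]
    refine Finset.sum_congr rfl fun n _ => ?_
    rw [Pi.add_apply]
    ring
  unfold avg
  rw [h1]
  ring

end closure

/-- product observables -/
noncomputable def gen (F : C(X, ℂ)) (k : ℤ) : C(X × UnitAddCircle, ℂ) :=
  (F.comp ⟨Prod.fst, continuous_fst⟩) * ((fourier k).comp ⟨Prod.snd, continuous_snd⟩)

omit [CompactSpace X] in
lemma gen_apply (F : C(X, ℂ)) (k : ℤ) (z : X × UnitAddCircle) :
    gen F k z = F z.1 * fourier k z.2 := rfl

/-- the monoid of product observables -/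
noncomputable def genMonoid (X : Type*) [MetricSpace X] :
    Submonoid C(X × UnitAddCircle, ℂ) where
  carrier := {f | ∃ F k, f = gen F k}
  one_mem' := ⟨1, 0, by
    ext z
    rw [gen_apply]
    simp⟩
  mul_mem' := by
    rintro _ _ ⟨F, k, rfl⟩ ⟨G, l, rfl⟩
    refine ⟨F * G, k + l, ?_⟩
    ext z
    rw [ContinuousMap.mul_apply, gen_apply, gen_apply, gen_apply, fourier_add,
      ContinuousMap.mul_apply]
    ring

/-- the star algebra of product observables -/
noncomputable def genAlg (X : Type*) [MetricSpace X] : StarSubalgebra ℂ C(X × UnitAddCircle, ℂ) where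
  toSubalgebra := Algebra.adjoin ℂ (genMonoid X : Set C(X × UnitAddCircle, ℂ))
  star_mem' := by
    intro a ha
    change a ∈ Algebra.adjoin ℂ (genMonoid X : Set C(X × UnitAddCircle, ℂ)) at ha
    change star a ∈ Algebra.adjoin ℂ (genMonoid X : Set C(X × UnitAddCircle, ℂ))
    induction ha using Algebra.adjoin_induction with
    | mem x hx =>
      obtain ⟨F, k, rfl⟩ := hx
      refine Algebra.subset_adjoin ⟨star F, -k, ?_⟩
      ext z
      rw [ContinuousMap.star_apply, gen_apply, gen_apply, fourier_neg, star_mul',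
        ContinuousMap.star_apply]
      rfl
    | algebraMap r =>
      rw [← algebraMap_star_comm]
      exact Subalgebra.algebraMap_mem _ _
    | add x y _ _ hx hy => rw [star_add]; exact Subalgebra.add_mem _ hx hy
    | mul x y _ _ hx hy => rw [star_mul]; exact Subalgebra.mul_mem _ hy hx

omit [CompactSpace X] in
lemma mem_genAlg (f : C(X × UnitAddCircle, ℂ)) :
    f ∈ genAlg X ↔ f ∈ Submodule.span ℂ (genMonoid X : Set C(X × UnitAddCircle, ℂ)) := by
  change f ∈ Algebra.adjoin ℂ (genMonoid X : Set C(X × UnitAddCircle, ℂ)) ↔ _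
  rw [← Subalgebra.mem_toSubmodule, Algebra.adjoin_eq_span, Submonoid.closure_eq]

lemma closure_genAlg : closure (genAlg X : Set C(X × UnitAddCircle, ℂ)) = Set.univ := by
  have h := ContinuousMap.starSubalgebra_topologicalClosure_eq_top_of_separatesPoints
    (genAlg X) ?_
  · have h2 := congrArg (fun A : StarSubalgebra ℂ C(X × UnitAddCircle, ℂ) =>
      (A : Set C(X × UnitAddCircle, ℂ))) h
    simpa using h2
  · intro x y hxy
    by_cases h1 : x.1 = y.1
    · have h2 : x.2 ≠ y.2 := fun h2 => hxy (Prod.ext h1 h2)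
      refine ⟨_, ⟨gen 1 1, Algebra.subset_adjoin ⟨1, 1, rfl⟩, rfl⟩, ?_⟩
      simp only [gen_apply, ContinuousMap.one_apply, one_mul]
      intro h3
      apply h2
      rw [fourier_one, fourier_one] at h3
      exact AddCircle.injective_toCircle one_ne_zero (Circle.ext h3)
    · refine ⟨_, ⟨gen ⟨fun z => ((dist z x.1 : ℝ) : ℂ), by fun_prop⟩ 0,
        Algebra.subset_adjoin ⟨_, 0, rfl⟩, rfl⟩, ?_⟩
      simp only [gen_apply, ContinuousMap.coe_mk, fourier_zero, mul_one, dist_self]
      intro h3
      have h4 : dist y.1 x.1 = 0 := by exact_mod_cast h3.symm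
      exact h1 (dist_eq_zero.1 h4).symm

/-- product observables with a nontrivial character -/
lemma tendsto_avg_gen {T : X → X} {F : X → ℂ} (hF : ∀ x, ‖F x‖ ≤ 1) {k : ℤ}
    {φ : C(X, UnitAddCircle)} (h : ∀ p q : ℕ, p.Prime → q.Prime → q < p → ∀ j : ℕ,
      φ ∈ good T F k p q (1 / (j + 1)) 0)
    {u : ℕ → ℂ} (hu : ∀ n, ‖u n‖ ≤ 1)
    (hmul : ∀ m n, Nat.Coprime m n → u (m * n) = u m * u n) (z : X × UnitAddCircle) :
    Tendsto (fun N => avg u (skew T φ) z N (fun w => F w.1 * fourier k w.2)) atTop (𝓝 0) := by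
  set a : ℕ → ℂ := fun n => F (T^[n] z.1) * fourier k (birkhoffSum T φ n z.1 + z.2) with ha
  have ha1 : ∀ n, ‖a n‖ ≤ 1 := by
    intro n
    simp only [ha]
    rw [norm_mul, norm_fourier, mul_one]
    exact hF _
  have hcorr : ∀ p q n : ℕ, a (p * n) * conj (a (q * n)) = Wt T F k p q φ n z.1 z.1 := by
    intro p q n
    simp only [ha]
    unfold Wt
    rw [fourier_add_right, fourier_add_right, map_mul, map_mul]
    have h1 : (fourier k z.2 : ℂ) * conj (fourier k z.2 : ℂ) = 1 := by
      rw [Complex.mul_conj, Complex.normSq_eq_norm_sq, norm_fourier]; norm_num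
    linear_combination (F (T^[p * n] z.1) * conj (F (T^[q * n] z.1)) *
      (fourier k (birkhoffSum T φ (p * n) z.1) * conj (fourier k (birkhoffSum T φ (q * n) z.1))))
        * h1
  have hlt : ∀ p q : ℕ, p.Prime → q.Prime → q < p →
      Tendsto (fun N : ℕ => (1 / (N : ℝ)) * ‖∑ n ∈ Icc 1 N, a (p * n) * conj (a (q * n))‖)
        atTop (𝓝 0) := by
    intro p q hp hq hpq
    simp_rw [hcorr]
    exact tendsto_of_good hF (h p q hp hq hpq) z.1
  have hall : ∀ p q : ℕ, p.Prime → q.Prime → p ≠ q →
      Tendsto (fun N : ℕ => (1 / (N : ℝ)) * ‖∑ n ∈ Icc 1 N, a (p * n) * conj (a (q * n))‖)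
        atTop (𝓝 0) := by
    intro p q hp hq hpq
    rcases lt_or_gt_of_ne hpq with h1 | h1
    · refine (hlt q p hq hp h1).congr fun N => ?_
      congr 1
      rw [← RCLike.norm_conj, map_sum]
      congr 1
      refine Finset.sum_congr rfl fun n _ => ?_
      rw [map_mul, Complex.conj_conj, mul_comm]
    · exact hlt p q hp hq h1
  have h2 := kbsz hu hmul ha1 hall
  rw [tendsto_zero_iff_norm_tendsto_zero]
  refine h2.congr fun N => ?_
  unfold avg
  rw [norm_mul, norm_div, norm_one, Complex.norm_natCast]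
  congr 2
  refine Finset.sum_congr rfl fun n _ => ?_
  rw [skew_iterate, mul_comm]

/-- the main theorem -/
theorem generic_extension {T : X → X} (hT : Continuous T)
    (hent : Dynamics.coverEntropy T Set.univ ≤ 0)
    (heig : ∀ K : ℕ, ∃ (g : C(X, UnitAddCircle)) (α : UnitAddCircle),
      (∀ n : ℕ, 0 < n → n ≤ K → n • α ≠ 0) ∧ ∀ x, g (T x) = g x + α) :
    ∀ᶠ φ : C(X, UnitAddCircle) in residual C(X, UnitAddCircle),
      ∀ u : ℕ → ℂ, (∀ n, ‖u n‖ ≤ 1) → (∀ m n, Nat.Coprime m n → u (m * n) = u m * u n) →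
        (Disj u (skew T φ) ↔ Disj u T) := by
  -- a countable dense family
  obtain ⟨D, hDc, hDd⟩ := TopologicalSpace.exists_countable_dense C(X, ℂ)
  have hnorm : ∀ F : C(X, ℂ), ∀ x, ‖(((1 / (‖F‖ + 1) : ℝ) : ℂ) • F) x‖ ≤ 1 := by
    intro F x
    have h0 : 0 < ‖F‖ + 1 := by positivity
    rw [ContinuousMap.smul_apply, norm_smul, Complex.norm_real, Real.norm_of_nonneg (by positivity),
      one_div, inv_mul_le_iff₀ h0]
    have := F.norm_coe_le_norm x
    linarith
  have hres : ∀ᶠ φ : C(X, UnitAddCircle) in residual C(X, UnitAddCircle),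
      ∀ F ∈ D, ∀ k p q j : ℕ, 0 < k → 0 < q → q < p →
        φ ∈ good T (((1 / (‖F‖ + 1) : ℝ) : ℂ) • F : C(X, ℂ)) k p q (1 / (j + 1)) 0 := by
    rw [eventually_countable_ball hDc]
    intro F _
    simp only [eventually_countable_forall]
    intro k p q j hk hq hpq
    exact residual_of_dense_open
      (isOpen_good hT (((1 / (‖F‖ + 1) : ℝ) : ℂ) • F : C(X, ℂ)).continuous k p q
        (1 / (j + 1)) 0)
      (dense_good hT hent heig hq hpq hk _ (hnorm F) (ε := 1 / (j + 1)) (by positivity) 0)
  filter_upwards [hres] with φ hφ u hu hmul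
  constructor
  · -- the base is a factor
    intro h f hf y
    have := h (fun z => f z.1) (hf.comp continuous_fst) (y, 0)
    refine this.congr fun N => ?_
    congr 1
    refine Finset.sum_congr rfl fun n _ => ?_
    rw [skew_iterate]
  · intro hbase f hf z
    -- positive characters
    have hpos : ∀ (v : ℕ → ℂ), (∀ n, ‖v n‖ ≤ 1) → (∀ m n, Nat.Coprime m n → v (m * n) = v m * v n) →
        ∀ (F : C(X, ℂ)) (k : ℕ), 0 < k →
        Tendsto (fun N => avg v (skew T φ) z N (gen F k)) atTop (𝓝 0) := by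
      intro v hv hvmul F k hk
      -- first for the dense family
      have h1 : ∀ G ∈ D, Tendsto (fun N => avg v (skew T φ) z N (gen G k)) atTop (𝓝 0) := by
        intro G hG
        have h2 := tendsto_avg_gen (T := T) (F := (((1 / (‖G‖ + 1) : ℝ) : ℂ) • G : C(X, ℂ)))
          (hnorm G) (k := k) (φ := φ)
          (fun p q hp hq hpq j => hφ G hG k p q j hk hq.pos hpq) hv hvmul z
        have h3 := h2.const_mul ((‖G‖ + 1 : ℝ) : ℂ)
        rw [mul_zero] at h3
        refine h3.congr fun N => ?_
        rw [← avg_smul]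
        congr 1
        funext w
        rw [Pi.smul_apply, ContinuousMap.smul_apply, gen_apply, smul_eq_mul, smul_eq_mul]
        have h0 : ((‖G‖ + 1 : ℝ) : ℂ) ≠ 0 := by
          have : (0 : ℝ) < ‖G‖ + 1 := by positivity
          exact_mod_cast this.ne'
        have h5 : ((‖G‖ + 1 : ℝ) : ℂ) * (((1 / (‖G‖ + 1) : ℝ) : ℂ)) = 1 := by
          rw [← Complex.ofReal_mul]
          have : (0 : ℝ) < ‖G‖ + 1 := by positivity
          rw [mul_one_div, div_self this.ne', Complex.ofReal_one]
        linear_combination (G w.1 * fourier k w.2) * h5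
      -- then by density
      have h2 : Continuous (fun G : C(X, ℂ) => gen G (k : ℤ)) := by
        unfold gen
        exact (ContinuousMap.continuous_precomp _).mul continuous_const
      have h3 : gen F (k : ℤ) ∈ closure ((fun G : C(X, ℂ) => gen G (k : ℤ)) '' D) := by
        have h4 := image_closure_subset_closure_image h2 (s := D)
        rw [hDd.closure_eq] at h4
        exact h4 ⟨F, Set.mem_univ _, rfl⟩
      refine avg_closed hv (skew T φ) z (A := (fun G : C(X, ℂ) => gen G (k : ℤ)) '' D) ?_ h3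
      rintro _ ⟨G, hG, rfl⟩
      exact h1 G hG
    -- all characters
    have hgen : ∀ (F : C(X, ℂ)) (k : ℤ),
        Tendsto (fun N => avg u (skew T φ) z N (gen F k)) atTop (𝓝 0) := by
      intro F k
      rcases lt_trichotomy k 0 with hk | hk | hk
      · obtain ⟨m, hm⟩ := Int.eq_ofNat_of_zero_le (show 0 ≤ -k by omega)
        have hm0 : 0 < m := by omega
        have h1 := hpos (fun n => conj (u n)) (fun n => by rw [RCLike.norm_conj]; exact hu n)
          (fun a b hab => by rw [hmul a b hab, map_mul]) (star F) m hm0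
        have h2 := (Complex.continuous_conj.tendsto 0).comp h1
        rw [map_zero] at h2
        refine h2.congr fun N => ?_
        simp only [Function.comp]
        unfold avg
        rw [map_mul, map_div₀, map_one, map_natCast, map_sum]
        congr 1
        refine Finset.sum_congr rfl fun n _ => ?_
        rw [map_mul, Complex.conj_conj, gen_apply, gen_apply, map_mul, ContinuousMap.star_apply,
          show k = -(m : ℤ) by omega, fourier_neg]
        simp
      · subst hk
        have h1 := hbase F F.continuous z.1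
        refine h1.congr fun N => ?_
        unfold avg
        congr 1
        refine Finset.sum_congr rfl fun n _ => ?_
        rw [skew_iterate, gen_apply, fourier_zero, mul_one]
      · obtain ⟨m, rfl⟩ := Int.eq_ofNat_of_zero_le hk.le
        exact hpos u hu hmul F m (by omega)
    -- the span
    have hspan : ∀ h ∈ (genAlg X : Set C(X × UnitAddCircle, ℂ)),
        Tendsto (fun N => avg u (skew T φ) z N h) atTop (𝓝 0) := by
      intro h hh
      rw [SetLike.mem_coe, mem_genAlg] at hh
      induction hh using Submodule.span_induction with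
      | mem x hx =>
        obtain ⟨F, k, rfl⟩ := hx
        exact hgen F k
      | zero =>
        refine tendsto_const_nhds.congr fun N => ?_
        simp [avg]
      | add x y _ _ hx hy =>
        have := hx.add hy
        rw [add_zero] at this
        refine this.congr fun N => ?_
        rw [← avg_add]; rfl
      | smul c x _ hx =>
        have := hx.const_mul c
        rw [mul_zero] at this
        refine this.congr fun N => ?_
        rw [← avg_smul]; rfl
    exact avg_closed hu (skew T φ) z hspan (f := ⟨f, hf⟩) (by rw [closure_genAlg]; trivial)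

end Pool.Agent.Lib.MP_9fe581_an
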