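import Mathlib

/-! Random phases: the combinatorial core. -/

open Finset
open scoped ComplexConjugate

namespace Pool.Agent.Lib.MP_9fe581_an

variable {C : Type*} [Fintype C] [DecidableEq C]

/-- flip the coordinates in `T` -/
def flip (T : Finset C) (e : C → Bool) : C → Bool := fun c => if c ∈ T then !(e c) else e c

omit [Fintype C] in
lemma flip_flip (T : Finset C) (e : C → Bool) : flip T (flip T e) = e := by
  funext c
  unfold flip
  split_ifs <;> simp

/-- flipping as a permutation -/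
def flipEquiv (T : Finset C) : (C → Bool) ≃ (C → Bool) :=
  ⟨flip T, flip T, flip_flip T, flip_flip T⟩

/-- averaging over flips -/
lemma sum_mul_le (H : Finset C) (f g : (C → Bool) → ℝ) (K : ℝ) (hf : ∀ e, 0 ≤ f e)
    (hinv : ∀ T ∈ H.powerset, ∀ e, f (flip T e) = f e)
    (hg : ∀ e, ∑ T ∈ H.powerset, g (flip T e) ≤ 2 ^ H.card * K) :
    ∑ e, f e * g e ≤ K * ∑ e, f e := by
  have h1 : (2 : ℝ) ^ H.card * ∑ e, f e * g e = ∑ e, f e * ∑ T ∈ H.powerset, g (flip T e) := by
    have h2 : ∀ T ∈ H.powerset, ∑ e, f e * g e = ∑ e, f e * g (flip T e) := by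
      intro T hT
      rw [← Equiv.sum_comp (flipEquiv T)]
      refine Finset.sum_congr rfl fun e _ => ?_
      show f (flip T e) * g (flip T e) = _
      rw [hinv T hT]
    calc (2 : ℝ) ^ H.card * ∑ e, f e * g e = ∑ T ∈ H.powerset, ∑ e, f e * g e := by
          rw [Finset.sum_const, card_powerset, nsmul_eq_mul]; push_cast; rfl
      _ = ∑ T ∈ H.powerset, ∑ e, f e * g (flip T e) := Finset.sum_congr rfl h2
      _ = ∑ e, ∑ T ∈ H.powerset, f e * g (flip T e) := Finset.sum_comm
      _ = _ := by simp_rw [Finset.mul_sum]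
  have h3 : (2 : ℝ) ^ H.card * ∑ e, f e * g e ≤ 2 ^ H.card * (K * ∑ e, f e) := by
    rw [h1]
    calc ∑ e, f e * ∑ T ∈ H.powerset, g (flip T e) ≤ ∑ e, f e * (2 ^ H.card * K) :=
          Finset.sum_le_sum fun e _ => mul_le_mul_of_nonneg_left (hg e) (hf e)
      _ = _ := by rw [← Finset.sum_mul]; ring
  exact le_of_mul_le_mul_left h3 (by positivity)

/-- indicator of a bit -/
def bit (b : Bool) : ℝ := if b then 1 else 0

lemma norm_one_add_exp_le {κ x : ℝ} (hκ0 : 0 < κ) (hκ : κ ≤ Real.pi) (hx : 1 / 2 ≤ |x|)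
    (hx1 : |x| ≤ 1) : ‖1 + Complex.exp (Complex.I * ((κ * x : ℝ) : ℂ))‖ ≤ 2 * Real.cos (κ / 4) := by
  have h1 : ‖1 + Complex.exp (Complex.I * ((κ * x : ℝ) : ℂ))‖ = 2 * |Real.cos (κ * x / 2)| := by
    have : 1 + Complex.exp (Complex.I * ((κ * x : ℝ) : ℂ))
        = Complex.exp (((κ * x / 2 : ℝ) : ℂ) * Complex.I) * (2 * Complex.cos ((κ * x / 2 : ℝ) : ℂ)) := by
      rw [Complex.two_cos, mul_add, ← Complex.exp_add, ← Complex.exp_add]
      rw [show ((κ * x / 2 : ℝ) : ℂ) * Complex.I + -((κ * x / 2 : ℝ) : ℂ) * Complex.I = 0 by ring,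
        Complex.exp_zero, show ((κ * x / 2 : ℝ) : ℂ) * Complex.I + ((κ * x / 2 : ℝ) : ℂ) * Complex.I
          = Complex.I * ((κ * x : ℝ) : ℂ) by push_cast; ring]
      ring
    rw [this, norm_mul, Complex.norm_exp_ofReal_mul_I, one_mul, norm_mul, ← Complex.ofReal_cos,
      Complex.norm_real, Real.norm_eq_abs]
    simp
  rw [h1]
  refine mul_le_mul_of_nonneg_left ?_ zero_le_two
  have h2 : |κ * x / 2| = κ * |x| / 2 := by
    rw [abs_div, abs_mul, abs_of_pos hκ0, abs_of_pos (zero_lt_two : (0 : ℝ) < 2)]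
  have h3 : Real.cos (κ * x / 2) = Real.cos (κ * |x| / 2) := by
    rw [← h2, Real.cos_abs]
  have hpi := Real.pi_pos
  rw [h3, abs_of_nonneg]
  · refine Real.cos_le_cos_of_nonneg_of_le_pi (by positivity) ?_ ?_
    · nlinarith
    · nlinarith
  · refine Real.cos_nonneg_of_neg_pi_div_two_le_of_le ?_ ?_
    · have : 0 ≤ κ * |x| / 2 := by positivity
      linarith
    · nlinarith [abs_nonneg x]

lemma norm_one_add_exp_le_two (y : ℝ) : ‖1 + Complex.exp (Complex.I * (y : ℂ))‖ ≤ 2 := by
  refine (norm_add_le _ _).trans ?_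
  rw [mul_comm, Complex.norm_exp_ofReal_mul_I, norm_one]
  norm_num

/-- averaging an exponential over flips in `H` -/
lemma norm_sum_flip_le {κ : ℝ} (hκ0 : 0 < κ) (hκ : κ ≤ Real.pi) (H G : Finset C) (hG : G ⊆ H)
    (x : C → ℝ) (hx : ∀ c ∈ G, 1 / 2 ≤ |x c| ∧ |x c| ≤ 1) (e : C → Bool) :
    ‖∑ T ∈ H.powerset, Complex.exp (Complex.I * ((κ * ∑ c, bit (flip T e c) * x c : ℝ) : ℂ))‖
      ≤ 2 ^ H.card * Real.cos (κ / 4) ^ G.card := by
  have h1 : ∀ T ∈ H.powerset,
      Complex.exp (Complex.I * ((κ * ∑ c, bit (flip T e c) * x c : ℝ) : ℂ))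
      = (∏ c ∈ Hᶜ, Complex.exp (Complex.I * ((κ * (bit (e c) * x c) : ℝ) : ℂ)))
        * ((∏ c ∈ T, Complex.exp (Complex.I * ((κ * (bit (!(e c)) * x c) : ℝ) : ℂ)))
          * ∏ c ∈ H \ T, Complex.exp (Complex.I * ((κ * (bit (e c) * x c) : ℝ) : ℂ))) := by
    intro T hT
    rw [mem_powerset] at hT
    have e1 : (κ * ∑ c, bit (flip T e c) * x c : ℝ)
        = (∑ c ∈ Hᶜ, κ * (bit (e c) * x c)) + ((∑ c ∈ T, κ * (bit (!(e c)) * x c))
          + ∑ c ∈ H \ T, κ * (bit (e c) * x c)) := by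
      rw [Finset.mul_sum, ← Finset.sum_compl_add_sum H]
      congr 1
      · refine Finset.sum_congr rfl fun c hc => ?_
        rw [mem_compl] at hc
        rw [flip, if_neg fun h => hc (hT h)]
      · rw [← Finset.sum_sdiff hT, add_comm]
        congr 1
        · refine Finset.sum_congr rfl fun c hc => ?_
          rw [flip, if_pos hc]
        · refine Finset.sum_congr rfl fun c hc => ?_
          rw [flip, if_neg (mem_sdiff.1 hc).2]
    rw [e1, Complex.ofReal_add, Complex.ofReal_add, mul_add, mul_add, Complex.exp_add,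
      Complex.exp_add, Complex.ofReal_sum, Complex.ofReal_sum, Complex.ofReal_sum, Finset.mul_sum,
      Finset.mul_sum, Finset.mul_sum, Complex.exp_sum, Complex.exp_sum, Complex.exp_sum]
  rw [Finset.sum_congr rfl h1, ← Finset.mul_sum, ← Finset.prod_add, norm_mul, norm_prod, norm_prod]
  have h2 : ∏ c ∈ Hᶜ, ‖Complex.exp (Complex.I * ((κ * (bit (e c) * x c) : ℝ) : ℂ))‖ = 1 := by
    refine Finset.prod_eq_one fun c _ => ?_
    rw [mul_comm, Complex.norm_exp_ofReal_mul_I]
  rw [h2, one_mul]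
  have h3 : ∀ c, ‖Complex.exp (Complex.I * ((κ * (bit (!(e c)) * x c) : ℝ) : ℂ))
      + Complex.exp (Complex.I * ((κ * (bit (e c) * x c) : ℝ) : ℂ))‖
      = ‖1 + Complex.exp (Complex.I * ((κ * x c : ℝ) : ℂ))‖ := by
    intro c
    cases h : e c
    · simp [bit, add_comm]
    · simp [bit]
  simp_rw [h3]
  rw [← Finset.prod_sdiff hG]
  have hcos : 0 ≤ Real.cos (κ / 4) := by
    refine Real.cos_nonneg_of_neg_pi_div_two_le_of_le ?_ ?_ <;> linarith [Real.pi_pos]
  calc (∏ c ∈ H \ G, ‖1 + Complex.exp (Complex.I * ((κ * x c : ℝ) : ℂ))‖)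
        * ∏ c ∈ G, ‖1 + Complex.exp (Complex.I * ((κ * x c : ℝ) : ℂ))‖
      ≤ (∏ c ∈ H \ G, (2 : ℝ)) * ∏ c ∈ G, (2 * Real.cos (κ / 4)) := by
        refine mul_le_mul ?_ ?_ (Finset.prod_nonneg fun _ _ => norm_nonneg _)
          (Finset.prod_nonneg fun _ _ => zero_le_two)
        · exact Finset.prod_le_prod (fun _ _ => norm_nonneg _)
            fun c _ => norm_one_add_exp_le_two _
        · exact Finset.prod_le_prod (fun _ _ => norm_nonneg _)
            fun c hc => norm_one_add_exp_le hκ0 hκ (hx c hc).1 (hx c hc).2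
    _ = 2 ^ H.card * Real.cos (κ / 4) ^ G.card := by
        rw [Finset.prod_const, Finset.prod_const, mul_pow, ← mul_assoc, ← pow_add,
          Finset.card_sdiff_add_card_eq_card hG]

/-- geometric double sum -/
lemma double_geom {ρ : ℝ} (h0 : 0 ≤ ρ) (h1 : ρ < 1) (B : ℕ) :
    ∑ m ∈ range B, ∑ m' ∈ range B, ρ ^ (max m m' - min m m') ≤ 2 * B / (1 - ρ) := by
  have hg : ∀ s : Finset ℕ, ∑ k ∈ s, ρ ^ k ≤ 1 / (1 - ρ) := by
    intro s
    have := (summable_geometric_of_lt_one h0 h1).sum_le_tsum s (fun _ _ => by positivity)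
    rwa [tsum_geometric_of_lt_one h0 h1, ← one_div] at this
  have h2 : ∀ m ∈ range B, ∑ m' ∈ range B, ρ ^ (max m m' - min m m') ≤ 2 / (1 - ρ) := by
    intro m _
    have k1 : ∑ m' ∈ (range B).filter (fun m' => m' ≤ m), ρ ^ (max m m' - min m m')
        ≤ 1 / (1 - ρ) := by
      calc ∑ m' ∈ (range B).filter (fun m' => m' ≤ m), ρ ^ (max m m' - min m m')
          = ∑ k ∈ ((range B).filter (fun m' => m' ≤ m)).image (fun m' => m - m'), ρ ^ k := by
            rw [Finset.sum_image]
            · refine Finset.sum_congr rfl fun m' hm' => ?_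
              have := (mem_filter.1 hm').2
              rw [max_eq_left this, min_eq_right this]
            · intro a ha b hb hab
              have ha' := (mem_filter.1 ha).2
              have hb' := (mem_filter.1 hb).2
              simp only at hab
              omega
        _ ≤ _ := hg _
    have k2 : ∑ m' ∈ (range B).filter (fun m' => ¬ m' ≤ m), ρ ^ (max m m' - min m m')
        ≤ 1 / (1 - ρ) := by
      calc ∑ m' ∈ (range B).filter (fun m' => ¬ m' ≤ m), ρ ^ (max m m' - min m m')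
          = ∑ k ∈ ((range B).filter (fun m' => ¬ m' ≤ m)).image (fun m' => m' - m), ρ ^ k := by
            rw [Finset.sum_image]
            · refine Finset.sum_congr rfl fun m' hm' => ?_
              have := (mem_filter.1 hm').2
              rw [max_eq_right (by omega), min_eq_left (by omega)]
            · intro a ha b hb hab
              have ha' := (mem_filter.1 ha).2
              have hb' := (mem_filter.1 hb).2
              simp only at hab
              omega
        _ ≤ _ := hg _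
    rw [← Finset.sum_filter_add_sum_filter_not (range B) (fun m' => m' ≤ m)]
    have : 2 / (1 - ρ) = 1 / (1 - ρ) + 1 / (1 - ρ) := by ring
    rw [this]
    exact add_le_add k1 k2
  refine (Finset.sum_le_sum h2).trans_eq ?_
  rw [Finset.sum_const, card_range, nsmul_eq_mul]
  ring

end Pool.Agent.Lib.MP_9fe581_an
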