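import Pool.Agent.Lib.MP_9fe581_an.DenseMain
import Pool.Agent.Lib.MP_9fe581_an.Kbsz

/-! A residual set of cocycles with small correlations. -/

open Filter Topology Finset
open scoped ComplexConjugate

namespace Pool.Agent.Lib.MP_9fe581_an

variable {X : Type*} [MetricSpace X] [CompactSpace X]

/-- cocycles with small correlations at some large time -/
def good (T : X → X) (F : X → ℂ) (k : ℤ) (p q : ℕ) (ε : ℝ) (M₀ : ℕ) :
    Set C(X, UnitAddCircle) :=
  {φ | ∃ N, M₀ ≤ N ∧ 0 < N ∧ ∀ x x', ‖∑ n ∈ range N, Wt T F k p q φ n x x'‖ < ε * N}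

lemma isOpen_good {T : X → X} (hT : Continuous T) {F : X → ℂ} (hF : Continuous F) (k : ℤ)
    (p q : ℕ) (ε : ℝ) (M₀ : ℕ) : IsOpen (good T F k p q ε M₀) := by
  have h1 : good T F k p q ε M₀ = ⋃ N : ℕ, ⋃ _ : M₀ ≤ N ∧ 0 < N,
      {φ : C(X, UnitAddCircle) | ∀ x x', ‖∑ n ∈ range N, Wt T F k p q φ n x x'‖ < ε * N} := by
    ext φ
    simp only [good, Set.mem_setOf_eq, Set.mem_iUnion, exists_prop, and_assoc]
  rw [h1]
  refine isOpen_iUnion fun N => isOpen_iUnion fun _ => ?_
  have hbs : ∀ n : ℕ, Continuous (fun z : C(X, UnitAddCircle) × X => birkhoffSum T z.1 n z.2) := by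
    intro n
    unfold birkhoffSum
    refine continuous_finsetSum _ fun j _ => ?_
    have : Continuous (fun z : C(X, UnitAddCircle) × X => (z.1, T^[j] z.2)) :=
      continuous_fst.prodMk ((hT.iterate j).comp continuous_snd)
    exact (ContinuousEval.continuous_eval (F := C(X, UnitAddCircle))).comp this
  have hΦ : Continuous (fun z : C(X, UnitAddCircle) × (X × X) =>
      ‖∑ n ∈ range N, Wt T F k p q z.1 n z.2.1 z.2.2‖) := by
    refine continuous_norm.comp (continuous_finsetSum _ fun n _ => ?_)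
    unfold Wt
    have g1 : Continuous (fun z : C(X, UnitAddCircle) × (X × X) => (z.1, z.2.1)) := by fun_prop
    have g2 : Continuous (fun z : C(X, UnitAddCircle) × (X × X) => (z.1, z.2.2)) := by fun_prop
    have e1 : Continuous (fun z : C(X, UnitAddCircle) × (X × X) => F (T^[p * n] z.2.1)) :=
      hF.comp ((hT.iterate _).comp (continuous_fst.comp continuous_snd))
    have e2 : Continuous (fun z : C(X, UnitAddCircle) × (X × X) => F (T^[q * n] z.2.2)) :=
      hF.comp ((hT.iterate _).comp (continuous_snd.comp continuous_snd))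
    have e3 : Continuous (fun z : C(X, UnitAddCircle) × (X × X) =>
        (fourier k (birkhoffSum T z.1 (p * n) z.2.1) : ℂ)) :=
      (fourier k).continuous.comp ((hbs (p * n)).comp g1)
    have e4 : Continuous (fun z : C(X, UnitAddCircle) × (X × X) =>
        (fourier k (birkhoffSum T z.1 (q * n) z.2.2) : ℂ)) :=
      (fourier k).continuous.comp ((hbs (q * n)).comp g2)
    exact (e1.mul (Complex.continuous_conj.comp e2)).mul
      (e3.mul (Complex.continuous_conj.comp e4))
  have hcl : IsClosed {z : C(X, UnitAddCircle) × (X × X) |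
      ε * N ≤ ‖∑ n ∈ range N, Wt T F k p q z.1 n z.2.1 z.2.2‖} :=
    isClosed_le continuous_const hΦ
  have h2 := isClosedMap_fst_of_compactSpace (X := C(X, UnitAddCircle)) (Y := X × X) _ hcl
  rw [← isOpen_compl_iff] at h2
  convert h2 using 1
  ext φ
  simp only [Set.mem_setOf_eq, Set.mem_compl_iff, Set.mem_image, Prod.exists, exists_and_right,
    exists_eq_right, not_exists, not_le]

lemma dense_good {T : X → X} (hT : Continuous T)
    (hent : Dynamics.coverEntropy T Set.univ ≤ 0)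
    (heig : ∀ K : ℕ, ∃ (g : C(X, UnitAddCircle)) (α : UnitAddCircle),
      (∀ n : ℕ, 0 < n → n ≤ K → n • α ≠ 0) ∧ ∀ x, g (T x) = g x + α)
    {p q : ℕ} (hq : 0 < q) (hpq : q < p) {k : ℕ} (hk : 0 < k) (F : C(X, ℂ))
    (hF : ∀ x, ‖F x‖ ≤ 1) {ε : ℝ} (hε : 0 < ε) (M₀ : ℕ) :
    Dense (good T F k p q ε M₀) := by
  rw [Metric.dense_iff]
  intro φ₀ r hr
  obtain ⟨φ, h1, h2⟩ := dense_step hT hent heig hq hpq hk F hF φ₀ hr hε M₀
  exact ⟨φ, h1, h2⟩

/-- correlations tend to zero -/
lemma tendsto_of_good {T : X → X} {F : X → ℂ} (hF : ∀ x, ‖F x‖ ≤ 1) {k : ℤ} {p q : ℕ}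
    {φ : C(X, UnitAddCircle)} (h : ∀ j : ℕ, φ ∈ good T F k p q (1 / (j + 1)) 0) (x : X) :
    Tendsto (fun N : ℕ => (1 / (N : ℝ)) * ‖∑ n ∈ Icc 1 N, Wt T F k p q φ n x x‖) atTop (𝓝 0) := by
  rw [Metric.tendsto_atTop]
  intro ε hε
  obtain ⟨j, hj⟩ := exists_nat_one_div_lt (show (0 : ℝ) < ε / 4 by positivity)
  obtain ⟨N, -, hN0, hN⟩ := h j
  have hNr : (0 : ℝ) < N := by exact_mod_cast hN0
  obtain ⟨N₁, hN₁⟩ := exists_nat_gt (4 * (N + 2) / ε)
  refine ⟨max N₁ 1, fun K hK => ?_⟩
  have hK1 : 1 ≤ K := (le_max_right _ _).trans hK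
  have hKr : (0 : ℝ) < K := by exact_mod_cast hK1
  have hKN : 4 * (N + 2) / ε < (K : ℝ) :=
    hN₁.trans_le (by exact_mod_cast (le_max_left _ _).trans hK)
  rw [div_lt_iff₀ hε] at hKN
  -- complete blocks
  have hblocks : ∀ M : ℕ, ‖∑ n ∈ range (M * N), Wt T F k p q φ n x x‖ ≤ M * (ε / 4 * N) := by
    intro M
    rw [sum_range_blocks]
    refine (norm_sum_le _ _).trans ?_
    calc ∑ b ∈ range M, ‖∑ m ∈ range N, Wt T F k p q φ (b * N + m) x x‖
        ≤ ∑ b ∈ range M, (ε / 4 * N) := by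
          refine Finset.sum_le_sum fun b _ => ?_
          simp_rw [Wt_add]
          rw [← Finset.mul_sum, norm_mul, norm_Gf, one_mul]
          refine (hN _ _).le.trans ?_
          exact mul_le_mul_of_nonneg_right hj.le hNr.le
      _ = _ := by rw [Finset.sum_const, card_range, nsmul_eq_mul]
  have hW1 : ∀ n, ‖Wt T F k p q φ n x x‖ ≤ 1 := fun n => norm_Wt_le T hF k p q φ n x x
  have hmain : ‖∑ n ∈ Icc 1 K, Wt T F k p q φ n x x‖ ≤ ε / 4 * K + (N + 1) := by
    set M := K / N with hM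
    have hMK : M * N ≤ K := Nat.div_mul_le_self K N
    have hKM : K < M * N + N := by
      have := Nat.lt_mul_div_succ K hN0
      rw [← hM] at this
      calc K < N * (M + 1) := this
        _ = M * N + N := by ring
    have e1 : ∑ n ∈ range (K + 1), Wt T F k p q φ n x x
        = ∑ n ∈ range (M * N), Wt T F k p q φ n x x
          + ∑ n ∈ Ico (M * N) (K + 1), Wt T F k p q φ n x x := by
      rw [Finset.sum_range_add_sum_Ico _ (by omega)]
    have e2 : ∑ n ∈ range (K + 1), Wt T F k p q φ n x x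
        = Wt T F k p q φ 0 x x + ∑ n ∈ Icc 1 K, Wt T F k p q φ n x x := by
      rw [Finset.sum_range_eq_add_Ico _ (by omega)]
      rfl
    -- avoid counting the term at time zero
    have e3 : ∑ n ∈ Icc 1 K, Wt T F k p q φ n x x
        = (∑ n ∈ range (M * N), Wt T F k p q φ n x x - Wt T F k p q φ 0 x x)
          + ∑ n ∈ Ico (M * N) (K + 1), Wt T F k p q φ n x x := by
      have := e2.symm.trans e1
      linear_combination this
    have hlast : ‖∑ n ∈ Ico (M * N) (K + 1), Wt T F k p q φ n x x‖ ≤ N := by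
      refine (norm_sum_le _ _).trans ?_
      calc ∑ n ∈ Ico (M * N) (K + 1), ‖Wt T F k p q φ n x x‖
          ≤ ∑ n ∈ Ico (M * N) (K + 1), (1 : ℝ) := Finset.sum_le_sum fun n _ => hW1 n
        _ = ((K + 1 - M * N : ℕ) : ℝ) := by simp
        _ ≤ N := by exact_mod_cast (by omega : K + 1 - M * N ≤ N)
    rw [e3]
    refine (norm_add_le _ _).trans ?_
    have h3 := norm_sub_le (∑ n ∈ range (M * N), Wt T F k p q φ n x x) (Wt T F k p q φ 0 x x)
    have h4 := hblocks M
    have h5 := hW1 0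
    have h6 : (M : ℝ) * (ε / 4 * N) ≤ ε / 4 * K := by
      have : ((M * N : ℕ) : ℝ) ≤ K := by exact_mod_cast hMK
      push_cast at this
      nlinarith
    linarith
  rw [Real.dist_eq, sub_zero, abs_of_nonneg (by positivity), one_div, inv_mul_lt_iff₀ hKr]
  refine hmain.trans_lt ?_
  nlinarith

end Pool.Agent.Lib.MP_9fe581_an
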