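import Pool.Agent.Lib.MP_9fe581_an.Blocks

/-! Choice of the bits. -/

open Finset
open scoped ComplexConjugate

namespace Pool.Agent.Lib.MP_9fe581_an

variable {C : Type*} [Fintype C] [DecidableEq C] {p q N : ℕ}

namespace Pat

omit [DecidableEq C] in
lemma norm_S_le (P : Pat C p q N) (κ : ℝ) (B b : ℕ) (e : C → Bool) : ‖P.S κ B b e‖ ≤ B := by
  refine (norm_sum_le _ _).trans ?_
  calc ∑ m ∈ range B, ‖P.w (b * B + m) * Complex.exp (Complex.I * ((κ * P.ph e (b * B + m) : ℝ) : ℂ))‖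
      ≤ ∑ m ∈ range B, (1 : ℝ) := by
        refine Finset.sum_le_sum fun m _ => ?_
        rw [norm_mul, mul_comm Complex.I, Complex.norm_exp_ofReal_mul_I, mul_one]
        exact P.hw _
    _ = B := by simp

omit [Fintype C] [DecidableEq C] in
open Classical in
lemma card_exc_le (P : Pat C p q N) (hpq : q < p) {B : ℕ} (hB : 0 < B) (M : ℕ) :
    ((range M).filter (fun b => P.Exc B b)).card ≤ p + q := by
  rcases ((range M).filter (fun b => P.Exc B b)).eq_empty_or_nonempty with h | h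
  · rw [h]; simp
  set b0 := ((range M).filter (fun b => P.Exc B b)).min' h with hb0
  have hmem : b0 ∈ (range M).filter (fun b => P.Exc B b) := Finset.min'_mem _ _
  have hsub : (range M).filter (fun b => P.Exc B b) ⊆ Ico b0 (b0 + (p + q)) := by
    intro b hb
    have hle : b0 ≤ b := Finset.min'_le _ _ hb
    rw [mem_Ico]
    refine ⟨hle, ?_⟩
    obtain ⟨j, i, h1, h2, h3, h4, h5⟩ := (mem_filter.1 hb).2
    obtain ⟨j0, i0, k1, k2, k3, k4, k5⟩ := (mem_filter.1 hmem).2
    by_contra hcon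
    push Not at hcon
    obtain ⟨d, rfl⟩ := Nat.exists_eq_add_of_le hcon
    obtain ⟨s, rfl⟩ := Nat.exists_eq_add_of_lt hpq
    have hB' : (0 : ℤ) < B := by exact_mod_cast hB
    have h1' : ((q + s + 1 : ℕ) : ℤ) * (((b0 + (q + s + 1 + q) + d : ℕ) : ℤ) * B) ≤ j := by
      exact_mod_cast h1
    have h4' : (i : ℤ) < (q : ℤ) * ((((b0 + (q + s + 1 + q) + d : ℕ) : ℤ) + 1) * B) := by
      exact_mod_cast h4
    have k2' : (j0 : ℤ) < ((q + s + 1 : ℕ) : ℤ) * (((b0 : ℤ) + 1) * B) := by exact_mod_cast k2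
    have k3' : (q : ℤ) * ((b0 : ℤ) * B) ≤ i0 := by exact_mod_cast k3
    have hfin : (j : ℤ) - i = j0 - i0 := by rw [h5, k5]
    push_cast at h1' h4' k2' k3'
    have hs0 : (0 : ℤ) ≤ s := by positivity
    have hq0 : (0 : ℤ) ≤ q := by positivity
    have hd0 : (0 : ℤ) ≤ d := by positivity
    have hb00 : (0 : ℤ) ≤ b0 := by positivity
    nlinarith [mul_nonneg hs0 hB'.le, mul_nonneg hq0 hB'.le, mul_nonneg hd0 hB'.le,
      mul_nonneg (mul_nonneg hs0 hs0) hB'.le, mul_nonneg (mul_nonneg hs0 hd0) hB'.le,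
      mul_nonneg (mul_nonneg hs0 hq0) hB'.le]
  refine (card_le_card hsub).trans ?_
  rw [Nat.card_Ico]
  omega

open Classical in
lemma sum_S_le (P : Pat C p q N) (hpq : q < p) {κ ε₁ : ℝ} (hε : 0 < ε₁) {B M R : ℕ} (hB : 0 < B)
    (hR : 0 < R) {t : ℝ} (ht : 0 ≤ t) (hy : (16 : ℝ) ^ R ≤ 1 + t * (ε₁ * B) ^ 2)
    (e : C → Bool)
    (he : ∏ b ∈ range M, (1 + t * if P.Exc B b then 0 else ‖P.S κ B b e‖ ^ 2) < 16 ^ M) :
    ∑ b ∈ range M, ‖P.S κ B b e‖ ≤ B * (ε₁ * M + M / R + (p + q)) := by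
  set X : Finset ℕ := (range M).filter (fun b => P.Exc B b) with hX
  set Y : Finset ℕ := ((range M).filter (fun b => ¬ P.Exc B b)).filter
    (fun b => ε₁ * B ≤ ‖P.S κ B b e‖) with hY
  have hYcard : (Y.card : ℝ) ≤ M / R := by
    have h1 : ((16 : ℝ) ^ R) ^ Y.card ≤
        ∏ b ∈ range M, (1 + t * if P.Exc B b then 0 else ‖P.S κ B b e‖ ^ 2) := by
      have hYs : Y ⊆ range M := (Finset.filter_subset _ _).trans (Finset.filter_subset _ _)
      calc ((16 : ℝ) ^ R) ^ Y.card = ∏ b ∈ Y, (16 : ℝ) ^ R := by rw [Finset.prod_const]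
        _ ≤ ∏ b ∈ Y, (1 + t * if P.Exc B b then 0 else ‖P.S κ B b e‖ ^ 2) := by
            refine Finset.prod_le_prod (fun _ _ => by positivity) fun b hb => ?_
            rw [hY, mem_filter, mem_filter] at hb
            rw [if_neg hb.1.2]
            refine hy.trans ?_
            have : (ε₁ * B) ^ 2 ≤ ‖P.S κ B b e‖ ^ 2 :=
              pow_le_pow_left₀ (by positivity) hb.2 2
            have := mul_le_mul_of_nonneg_left this ht
            linarith
        _ ≤ _ := by
            refine Finset.prod_le_prod_of_subset_of_one_le hYs ?_ ?_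
            · intro b _
              split_ifs <;> positivity
            · intro b _ _
              have : 0 ≤ t * if P.Exc B b then 0 else ‖P.S κ B b e‖ ^ 2 := by
                split_ifs <;> positivity
              linarith
    have h2 : (16 : ℝ) ^ (R * Y.card) < 16 ^ M := by
      rw [pow_mul]; exact h1.trans_lt he
    have h3 : R * Y.card < M := (pow_lt_pow_iff_right₀ (by norm_num)).1 h2
    rw [le_div_iff₀ (by exact_mod_cast hR)]
    have : ((R * Y.card : ℕ) : ℝ) ≤ M := by exact_mod_cast h3.le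
    push_cast at this
    linarith
  have hXcard : (X.card : ℝ) ≤ p + q := by exact_mod_cast P.card_exc_le hpq hB M
  have hb : ∀ b ∈ range M, ‖P.S κ B b e‖
      ≤ (if b ∈ X then (B : ℝ) else 0) + (if b ∈ Y then (B : ℝ) else 0) + ε₁ * B := by
    intro b hb
    have hS := P.norm_S_le κ B b e
    have h0 : 0 ≤ ε₁ * B := by positivity
    by_cases h1 : b ∈ X
    · rw [if_pos h1]
      have : (0 : ℝ) ≤ if b ∈ Y then (B : ℝ) else 0 := by split_ifs <;> positivity
      linarith
    · rw [if_neg h1]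
      by_cases h2 : b ∈ Y
      · rw [if_pos h2]; linarith
      · rw [if_neg h2]
        have h3 : ¬ P.Exc B b := fun h => h1 (mem_filter.2 ⟨hb, h⟩)
        have h4 : ¬ (ε₁ * B ≤ ‖P.S κ B b e‖) := fun h =>
          h2 (mem_filter.2 ⟨mem_filter.2 ⟨hb, h3⟩, h⟩)
        push Not at h4
        linarith
  refine (Finset.sum_le_sum hb).trans ?_
  rw [Finset.sum_add_distrib, Finset.sum_add_distrib, Finset.sum_const, card_range, nsmul_eq_mul]
  have hXs : ∑ b ∈ range M, (if b ∈ X then (B : ℝ) else 0) = X.card * B := by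
    rw [← Finset.sum_filter, Finset.filter_mem_eq_inter,
      Finset.inter_eq_right.2 (Finset.filter_subset _ _), Finset.sum_const, nsmul_eq_mul]
  have hYs : ∑ b ∈ range M, (if b ∈ Y then (B : ℝ) else 0) = Y.card * B := by
    rw [← Finset.sum_filter, Finset.filter_mem_eq_inter,
      Finset.inter_eq_right.2 ((Finset.filter_subset _ _).trans (Finset.filter_subset _ _)),
      Finset.sum_const, nsmul_eq_mul]
  rw [hXs, hYs]
  have hB' : (0 : ℝ) < B := by exact_mod_cast hB
  nlinarith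

end Pat

open Classical in
/-- choice of good bits for a finite family of patterns -/
theorem exists_bits {κ : ℝ} (hκ0 : 0 < κ) (hκ : κ ≤ Real.pi) (hq : 0 < q) (hpq : q < p)
    {ε₁ : ℝ} (hε : 0 < ε₁) {R : ℕ} (hR : 0 < R) :
    ∃ B : ℕ, 0 < B ∧ ∀ (C : Type) [Fintype C] [DecidableEq C] (M N : ℕ), M * B ≤ N →
      ∀ (ι : Type*) [Fintype ι] (P : ι → Pat C p q N), (Fintype.card ι : ℝ) < 8 ^ M →
        ∃ e : C → Bool, ∀ i, ∑ b ∈ range M, ‖(P i).S κ B b e‖
          ≤ B * (ε₁ * M + M / R + (p + q)) := by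
  have hρ1 : Real.cos (κ / 4) < 1 := by
    rw [← Real.cos_zero]
    exact Real.cos_lt_cos_of_nonneg_of_le_pi le_rfl (by linarith) (by linarith)
  set δ : ℝ := 1 - Real.cos (κ / 4) with hδ
  have hδ0 : 0 < δ := by linarith
  obtain ⟨B, hB⟩ := exists_nat_gt ((16 : ℝ) ^ R * 2 / (ε₁ ^ 2 * δ))
  have hB0 : 0 < B := by
    have : (0 : ℝ) < B := lt_of_le_of_lt (by positivity) hB
    exact_mod_cast this
  have hBr : (0 : ℝ) < B := by exact_mod_cast hB0
  refine ⟨B, hB0, ?_⟩
  intro C _ _ M N hMN ι _ P hcard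
  set t : ℝ := δ / (2 * B) with ht
  have ht0 : 0 ≤ t := by positivity
  have hy : (16 : ℝ) ^ R ≤ 1 + t * (ε₁ * B) ^ 2 := by
    have h1 : t * (ε₁ * B) ^ 2 = ε₁ ^ 2 * δ * B / 2 := by
      rw [ht]; field_simp
    rw [h1]
    rw [div_lt_iff₀ (by positivity)] at hB
    linarith
  have hK : t * (2 * B / δ) = 1 := by
    rw [ht]; field_simp
  have hex : ∃ e : C → Bool, ∀ i,
      ∏ b ∈ range M, (1 + t * if (P i).Exc B b then 0 else ‖(P i).S κ B b e‖ ^ 2) < 16 ^ M := by
    by_contra hcon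
    push Not at hcon
    have h1 : ∀ e : C → Bool, (16 : ℝ) ^ M ≤ ∑ i, ∏ b ∈ range M,
        (1 + t * if (P i).Exc B b then 0 else ‖(P i).S κ B b e‖ ^ 2) := by
      intro e
      obtain ⟨i, hi⟩ := hcon e
      refine hi.trans (Finset.single_le_sum (f := fun i => ∏ b ∈ range M,
        (1 + t * if (P i).Exc B b then 0 else ‖(P i).S κ B b e‖ ^ 2)) (fun i _ => ?_)
        (Finset.mem_univ i))
      exact Finset.prod_nonneg fun b _ => by split_ifs <;> positivity
    have h2 := Finset.sum_le_sum (s := (Finset.univ : Finset (C → Bool))) fun e _ => h1 e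
    rw [Finset.sum_const, Finset.sum_comm, nsmul_eq_mul] at h2
    have h3 : ∀ i, ∑ e, ∏ b ∈ range M,
        (1 + t * if (P i).Exc B b then 0 else ‖(P i).S κ B b e‖ ^ 2)
        ≤ 2 ^ M * 2 ^ Fintype.card C := by
      intro i
      have := (P i).product_moment hκ0 hκ (hq.trans hpq) hq (B := B) ht0 M hMN
      rw [← hδ, hK] at this
      norm_num at this ⊢
      exact this
    have h4 := h2.trans (Finset.sum_le_sum fun i _ => h3 i)
    rw [Finset.sum_const, nsmul_eq_mul, Finset.card_univ, Finset.card_univ,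
      Fintype.card_fun, Fintype.card_bool] at h4
    push_cast at h4
    have h5 : (0 : ℝ) < 2 ^ Fintype.card C := by positivity
    have h6 : (16 : ℝ) ^ M ≤ Fintype.card ι * 2 ^ M := by
      have : (2 : ℝ) ^ Fintype.card C * 16 ^ M
          ≤ 2 ^ Fintype.card C * (Fintype.card ι * 2 ^ M) := by linarith
      exact le_of_mul_le_mul_left this h5
    have h7 : (16 : ℝ) ^ M = 8 ^ M * 2 ^ M := by rw [← mul_pow]; norm_num
    rw [h7] at h6
    have h8 := le_of_mul_le_mul_right h6 (by positivity)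
    linarith
  obtain ⟨e, he⟩ := hex
  exact ⟨e, fun i => (P i).sum_S_le hpq hε hB0 hR ht0 hy e (he i)⟩

end Pool.Agent.Lib.MP_9fe581_an
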